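import Pool.Agent.TH427.AM2.Dif

/-!
The algebra behind commutative automorphic loops of exponent two: a map `w : V → End V` of an
elementary abelian 2-group with `w(x) c + w(c) x = κ'(x,c) (x + c)`, where
`κ'(x,y) = w(x) + w(y) + w(x+y)`, `κ'(x,y)² = 0`, and
`κ'(p,q) (w(p+q) r + w(r) (p+q))` totally symmetric.
-/

set_option autoImplicit false

namespace Pool.Agent.TH427.AM2

section

variable {V : Type*} [AddCommGroup V]

theorem eadd (a b : AddMonoid.End V) (v : V) : (a + b) v = a v + b v := rfl
theorem emul (a b : AddMonoid.End V) (v : V) : (a * b) v = a (b v) := rfl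

/-- the second difference -/
def kp (w : V → AddMonoid.End V) (x y : V) : AddMonoid.End V := w x + w y + w (x + y)

/-- the algebraic data -/
structure Alg (w : V → AddMonoid.End V) : Prop where
  two : ∀ v : V, v + v = 0
  zero : w 0 = 0
  sq : ∀ x y v, kp w x y (kp w x y v) = 0
  D : ∀ x c, w x c + w c x = kp w x c (x + c)
  S : ∀ p q r, kp w p q (w (p + q) r + w r (p + q)) = kp w p r (w (p + r) q + w q (p + r))

namespace Alg

variable {w : V → AddMonoid.End V}

theorem cancel (h : Alg w) {a b : V} (hab : a + b = 0) : a = b := by
  calc a = a + (b + b) := by rw [h.two, add_zero]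
    _ = (a + b) + b := by abel
    _ = b := by rw [hab, zero_add]

theorem twoE (h : Alg w) (a : AddMonoid.End V) : a + a = 0 := by
  ext v; exact h.two (a v)

theorem cancelE (h : Alg w) {a b : AddMonoid.End V} (hab : a + b = 0) : a = b := by
  calc a = a + (b + b) := by rw [h.twoE, add_zero]
    _ = (a + b) + b := by abel
    _ = b := by rw [hab, zero_add]

theorem kp_comm (w : V → AddMonoid.End V) (x y : V) : kp w x y = kp w y x := by
  unfold kp; rw [add_comm x y]; abel

theorem kp_self (h : Alg w) (x : V) : kp w x x = 0 := by
  unfold kp; rw [h.two, h.zero, h.twoE, add_zero]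

theorem kp_zero (h : Alg w) (x : V) : kp w x 0 = 0 := by
  unfold kp; rw [h.zero, add_zero, add_zero, h.twoE]

theorem kp_line (h : Alg w) (x y : V) : kp w x (x + y) = kp w x y := by
  unfold kp
  rw [← add_assoc, h.two, zero_add]; abel

/-- the symmetric function `θ` -/
def F (w : V → AddMonoid.End V) (p q r : V) : V := kp w p q (w (p + q) r + w r (p + q))

theorem F_12 (w : V → AddMonoid.End V) (p q r : V) : F w p q r = F w q p r := by
  unfold F; rw [kp_comm, add_comm p q]

theorem F_23 (h : Alg w) (p q r : V) : F w p q r = F w p r q := h.S p q r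

theorem F_13 (h : Alg w) (p q r : V) : F w p q r = F w r q p := by
  rw [F_12, h.F_23, F_12]

theorem w_add (h : Alg w) (p q r : V) : w (p + q) r = w p r + w q r + kp w p q r := by
  unfold kp
  simp only [eadd]
  have h1 := h.two (w p r)
  have h2 := h.two (w q r)
  calc w (p + q) r = (w p r + w p r) + (w q r + w q r) + w (p + q) r := by rw [h1, h2]; simp
    _ = _ := by abel

theorem F_eq (h : Alg w) (p q r : V) :
    F w p q r = kp w p q (w p r + w r p) + kp w p q (w q r + w r q) := by
  unfold F
  rw [h.w_add, map_add (w r)]
  have : w p r + w q r + kp w p q r + (w r p + w r q) =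
    (w p r + w r p) + (w q r + w r q) + kp w p q r := by abel
  rw [this, map_add, map_add, h.sq, add_zero]

theorem comm_aux (h : Alg w) (p q r : V) :
    kp w p q (kp w p r (p + r)) = kp w p r (kp w p q (p + r)) := by
  -- second difference in the last variable
  have h1 : kp w p r (kp w p q (p + r)) = F w p r (p + q) + F w p r p + F w p r q := by
    unfold F
    rw [← map_add, ← map_add]
    congr 1
    rw [h.w_add p q (p + r)]
    simp only [map_add]
    have h1 := h.two (w (p + r) p)
    have h2 := h.two (w (p + r) q)
    have h3 := h.two (w p p)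
    have h4 := h.two (w p r)
    have h5 := h.two (w q p)
    have h6 := h.two (w q r)
    symm
    calc w (p + r) p + w (p + r) q + (w p p + w p r + (w q p + w q r) + (kp w p q p + kp w p q r))
          + (w (p + r) p + (w p p + w p r)) + (w (p + r) q + (w q p + w q r))
        = (w (p + r) p + w (p + r) p) + (w (p + r) q + w (p + r) q) + (w p p + w p p)
          + (w p r + w p r) + (w q p + w q p) + (w q r + w q r) + (kp w p q p + kp w p q r) := by
          abel
      _ = _ := by rw [h1, h2, h3, h4, h5, h6]; simp
  have h2 : F w p r p = 0 := by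
    rw [h.F_23]; unfold F; rw [h.kp_self]; simp
  have h3 : F w p r (p + q) = kp w p q (w q r + w r q) := by
    rw [h.F_23]; unfold F; rw [h.kp_line]
    have : p + (p + q) = q := by rw [← add_assoc, h.two, zero_add]
    rw [this]
  have h4 : F w p r q = kp w p q (w p r + w r p) + kp w p q (w q r + w r q) := by
    rw [h.F_23, h.F_eq]
  rw [h1, h2, h3, h4, h.D p r, add_zero]
  have := h.two (kp w p q (w q r + w r q))
  calc kp w p q (kp w p r (p + r)) = kp w p q (kp w p r (p + r)) +
      (kp w p q (w q r + w r q) + kp w p q (w q r + w r q)) := by rw [this, add_zero]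
    _ = _ := by abel

theorem comm_x (h : Alg w) (x y c : V) :
    kp w x y (kp w x c x) = kp w x c (kp w x y x) := by
  have h1 := h.comm_aux x y c
  have h2 := h.comm_aux x y (x + c)
  have e : x + (x + c) = c := by rw [← add_assoc, h.two, zero_add]
  rw [h.kp_line, e] at h2
  rw [map_add, map_add, map_add, map_add, h2] at h1
  exact add_right_cancel h1

end Alg

/-- product rule -/
theorem DegLt.mul (B : AddMonoid.End V) {n : ℕ} :
    ∀ {w : V → AddMonoid.End V}, DegLt n w → DegLt (n + 1) (fun z => w z (B z)) := by
  induction n with
  | zero =>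
    intro w hw
    have : (fun z => w z (B z)) = fun _ => (0 : V) := by
      funext z
      have := congrFun (hw [] rfl) z
      rw [dl_nil] at this
      rw [this]; simp
    rw [this]
    intro L _
    exact dl_zero L
  | succ n ih =>
    intro w hw
    apply degLt_of_df
    intro a
    have e : AM2.df a (fun z => w z (B z)) = fun z => (AM2.df a w z) (B z) + w (z + a) (B a) := by
      funext z
      simp only [AM2.df, map_add, eadd]
      abel
    rw [e]
    refine (ih (hw.df a)).add ?_
    exact (hw.shift a).map (AddMonoidHom.eval (B a) : AddMonoid.End V →+ V)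

end

end Pool.Agent.TH427.AM2
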