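import Pool.Agent.TH427.AM2.Red

/-!
Every automorphic loop of 2-power order: the commutator subgroup of the multiplication group is a
2-group and the middle nucleus is nontrivial.
-/

set_option autoImplicit false

namespace Pool.Agent.TH427.AM2

open Pool.Agent.H687R3.AL Pool.Agent.H687R3.AL.AL Pool.Agent.W328.AM Equiv

variable {Q : Type} {A : AL Q} {M : Set Q}

namespace MN

theorem J_fix [Finite Q] (h : MN A M) (hcard : ∃ n, Nat.card Q = 2 ^ n) {m : Q} (hm : m ∈ M) :
    A.J m = m := (eq_inv (h.sq hcard m hm)).symm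

theorem comm [Finite Q] (h : MN A M) (hcard : ∃ n, Nat.card Q = 2 ^ n) :
    ∀ m ∈ M, ∀ n ∈ M, A.op m n = A.op n m := by
  intro m hm n hn
  have h1 := aaip (A := A) m n
  have h2 : A.inv (A.op m n) = A.op m n := h.J_fix hcard (h.ns.op m hm n hn)
  have h3 : A.inv m = m := h.J_fix hcard hm
  have h4 : A.inv n = n := h.J_fix hcard hn
  rw [h2, h3, h4] at h1
  exact h1

theorem st_mul [Finite Q] (h : MN A M) (hcard : ∃ n, Nat.card Q = 2 ^ n) {g : Perm Q}
    (hg : g ∈ GG A) (he : g A.e = A.e) {m n : Q}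
    (hm : m ∈ M) (hn : n ∈ M) : g (A.op m n) = A.op (g m) (g n) := by
  rcases gg_cases hg with h1 | h1
  · exact aut_apply (hol_fix h1 he) m n
  · have h2 := hol_fix h1 (by rw [Perm.mul_apply, je, he])
    have h3 := aut_apply h2 m n
    rw [Perm.mul_apply, Perm.mul_apply, Perm.mul_apply, h.J_fix hcard hm, h.J_fix hcard hn,
      h.J_fix hcard (h.ns.op m hm n hn)] at h3
    exact h3

/-- the subloop -/
def sub [Finite Q] (h : MN A M) : AL {m : Q // m ∈ M} where
  op a b := ⟨A.op a.1 b.1, h.ns.op _ a.2 _ b.2⟩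
  e := ⟨A.e, h.ns.e⟩
  idl a := Subtype.ext (A.idl _)
  idr a := Subtype.ext (A.idr _)
  bijL a := by
    apply Finite.injective_iff_bijective.1
    intro b c hbc
    exact Subtype.ext ((A.bijL a.1).1 (congrArg Subtype.val hbc))
  bijR a := by
    apply Finite.injective_iff_bijective.1
    intro b c hbc
    exact Subtype.ext ((A.bijR a.1).1 (congrArg Subtype.val hbc))
  autL x y z₁ z₂ w₁ w₂ h1 h2 :=
    Subtype.ext (A.autL x.1 y.1 z₁.1 z₂.1 w₁.1 w₂.1 (congrArg Subtype.val h1)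
      (congrArg Subtype.val h2))
  autR x y z₁ z₂ w₁ w₂ h1 h2 :=
    Subtype.ext (A.autR x.1 y.1 z₁.1 z₂.1 w₁.1 w₂.1 (congrArg Subtype.val h1)
      (congrArg Subtype.val h2))
  autT x z₁ z₂ w₁ w₂ h1 h2 :=
    Subtype.ext (A.autT x.1 z₁.1 z₂.1 w₁.1 w₂.1 (congrArg Subtype.val h1)
      (congrArg Subtype.val h2))

theorem assoc [Finite Q] (h : MN A M) (hcard : ∃ n, Nat.card Q = 2 ^ n) :
    ∀ m ∈ M, ∀ n ∈ M, ∀ p ∈ M, A.op (A.op m n) p = A.op m (A.op n p) := by
  have key := core h.sub (fun x y => Subtype.ext (h.comm hcard x.1 x.2 y.1 y.2))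
    (fun x => Subtype.ext (h.sq hcard x.1 x.2)) (by
      intro S heS hopS hautS
      by_cases hcon : ∀ a ∈ S, a = h.sub.e
      · exact Or.inl hcon
      right
      push Not at hcon
      obtain ⟨a0, ha0, ha0e⟩ := hcon
      let S' : Set Q := {x | ∃ hx : x ∈ M, (⟨x, hx⟩ : {m : Q // m ∈ M}) ∈ S}
      have hS' : NS A S' := by
        refine ⟨⟨h.ns.e, heS⟩, ?_, ?_⟩
        · rintro s ⟨hs, hs'⟩ t ⟨ht, ht'⟩
          exact ⟨h.ns.op s hs t ht, hopS _ hs' _ ht'⟩
        · rintro g hg hge s ⟨hs, hs'⟩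
          have hgi : g⁻¹ A.e = A.e := by rw [Perm.inv_eq_iff_eq, hge]
          have hiff : ∀ x, x ∈ M ↔ g x ∈ M := by
            intro x
            constructor
            · intro hx; exact h.ns.st g hg hge x hx
            · intro hx
              have := h.ns.st g⁻¹ (inv_mem hg) hgi _ hx
              simpa using this
          let gM : Perm {m : Q // m ∈ M} := g.subtypePerm (p := fun m => m ∈ M)
            (fun x => (hiff x).symm)
          have hgM : gM ∈ h.sub.Aut := by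
            intro a b
            exact Subtype.ext (h.st_mul hcard hg hge a.2 b.2)
          exact ⟨(hiff s).1 hs, hautS gM hgM _ hs'⟩
      have hMS := h.min S' hS' (fun s hs => hs.1) ⟨a0.1, ⟨a0.2, ha0⟩, fun he =>
        ha0e (Subtype.ext he)⟩
      intro a
      exact (hMS a.2).2)
  intro m hm n hn p hp
  exact congrArg Subtype.val (key ⟨m, hm⟩ ⟨n, hn⟩ ⟨p, hp⟩)

theorem ms [Finite Q] (h : MN A M) (hcard : ∃ n, Nat.card Q = 2 ^ n) : MS A M where
  ns := h.ns
  comm := h.comm hcard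
  assoc := h.assoc hcard
  sq := h.sq hcard
  ne := h.ne
  min := h.min

end MN

theorem exists_MN [Finite Q] (A : AL Q) (hne : ∃ x : Q, x ≠ A.e) : ∃ M, MN A M := by
  let F : Set (Set Q) := {S | NS A S ∧ ∃ s ∈ S, s ≠ A.e}
  have hF : Set.univ ∈ F := by
    refine ⟨⟨trivial, fun _ _ _ _ => trivial, fun _ _ _ _ _ => trivial⟩, ?_⟩
    obtain ⟨x, hx⟩ := hne
    exact ⟨x, trivial, hx⟩
  obtain ⟨M, hMF, hMmin⟩ := (Set.toFinite F).exists_minimal ⟨_, hF⟩
  exact ⟨M, hMF.1, hMF.2, fun S hS hSM hSne => hMmin ⟨hS, hSne⟩ hSM⟩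

theorem sc_all (n : ℕ) : ∀ (Q : Type) [Finite Q] (A : AL Q), (∃ k, Nat.card Q = 2 ^ k) →
    Nat.card Q = n → SC A := by
  induction n using Nat.strong_induction_on with
  | _ n ih =>
    intro Q _ A hcard hn
    by_cases hne : ∃ x : Q, x ≠ A.e
    swap
    · push Not at hne
      intro c _
      refine ⟨0, Subtype.ext (Equiv.ext fun x => ?_)⟩
      rw [hne x, hne (((c ^ 2 ^ 0 : GG A) : Equiv.Perm Q) A.e)]
      rfl
    obtain ⟨M, hM⟩ := exists_MN A hne
    have ms := hM.ms hcard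
    obtain ⟨P, C, π, hπs, hπ, hπM⟩ := exists_quot hM.ns
    have hfinP : Finite P := Finite.of_surjective π hπs
    have hcardP : Nat.card {m : Q // m ∈ M} * Nat.card P = Nat.card Q := by
      have hfib : ∀ q : P, Nat.card {y // π y = q} = Nat.card {m : Q // m ∈ M} := by
        intro q
        obtain ⟨x, rfl⟩ := hπs q
        refine (Nat.card_congr ((A.L x).subtypeEquiv ?_)).symm
        intro y
        change y ∈ M ↔ π (A.op x y) = π x
        rw [eq_comm, hπM]
        constructor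
        · intro h; exact ⟨y, h, rfl⟩
        · rintro ⟨s, hs, h1⟩
          rw [MS.opL_cancel h1]
          exact hs
      have := Fintype.ofFinite P
      rw [← Nat.card_congr (Equiv.sigmaFiberEquiv π), Nat.card_sigma]
      simp only [hfib]
      rw [Finset.sum_const, Finset.card_univ, ← Nat.card_eq_fintype_card, smul_eq_mul,
        mul_comm]
    have hlt : Nat.card P < n := by
      rw [← hn, ← hcardP]
      obtain ⟨j, hj⟩ := ms.even_M
      have h1 : 0 < Nat.card {m : Q // m ∈ M} := Nat.card_pos_iff.2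
        ⟨⟨⟨A.e, hM.ns.e⟩⟩, Subtype.finite⟩
      have h2 : 0 < Nat.card P := Nat.card_pos_iff.2 ⟨⟨π A.e⟩, hfinP⟩
      have h3 : 2 ≤ Nat.card {m : Q // m ∈ M} := by omega
      nlinarith
    have hP2 : ∃ k, Nat.card P = 2 ^ k := by
      obtain ⟨k, hk⟩ := hcard
      have h1 : Nat.card P ∣ 2 ^ k := ⟨_, by rw [← hk, ← hcardP, mul_comm]⟩
      obtain ⟨i, _, hi⟩ := (Nat.dvd_prime_pow Nat.prime_two).1 h1
      exact ⟨i, hi⟩
    exact ext_step hcard ms hπs hπ hπM (ih (Nat.card P) hlt P C hP2 rfl)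

/-- every automorphic loop of order `2 ^ k`, `k ≥ 1`, has a nontrivial middle nucleus -/
theorem mid_two (k : ℕ) (hk : 1 ≤ k) (Q : Type) (A : AL Q) (hcard : Nat.card Q = 2 ^ k) :
    ∃ a, a ≠ A.e ∧ ∀ x y, A.op (A.op x a) y = A.op x (A.op a y) := by
  have hfin : Finite Q := Nat.finite_of_card_ne_zero (by rw [hcard]; positivity)
  have hne : ∃ x : Q, x ≠ A.e := by
    by_contra hcon
    push Not at hcon
    have h1 : Nat.card Q = 1 := Nat.card_eq_one_iff_unique.2
      ⟨⟨fun a b => (hcon a).trans (hcon b).symm⟩, ⟨A.e⟩⟩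
    rw [hcard] at h1
    have h2 := Nat.one_lt_two_pow (n := k) (by omega)
    omega
  exact exists_mid ⟨k, hcard⟩ hne (sc_all _ Q A ⟨k, hcard⟩ rfl)

end Pool.Agent.TH427.AM2
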