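import Pool.Agent.TH427.AM2.Fin
import Pool.Agent.H687R3.AL.Diamond
import Pool.Agent.H687R3.AL.Elem

/-!
Commutative automorphic loops of exponent two.
-/

set_option autoImplicit false

namespace Pool.Agent.TH427.AM2

open Pool.Agent.H687R3.AL Pool.Agent.H687R3.AL.AL Pool.Agent.H687R3.AL.Diamond Equiv

theorem six {X : Type*} [Group X] {a b c l m n : X} (h1 : b * a = l * b) (h2 : c * a = l * c)
    (h3 : a * b = m * a) (h4 : c * b = m * c) (h5 : a * c = n * a) (h6 : b * c = n * b) :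
    a * l⁻¹ = b * m⁻¹ ∧ a * l⁻¹ = c * n⁻¹ ∧ (a * l⁻¹) * (a * l⁻¹) = 1 := by
  have e1 : l = b * a * b⁻¹ := eq_mul_inv_of_mul_eq h1.symm
  have e2 : l = c * a * c⁻¹ := eq_mul_inv_of_mul_eq h2.symm
  have e3 : m = a * b * a⁻¹ := eq_mul_inv_of_mul_eq h3.symm
  have e4 : m = c * b * c⁻¹ := eq_mul_inv_of_mul_eq h4.symm
  have e5 : n = a * c * a⁻¹ := eq_mul_inv_of_mul_eq h5.symm
  have e6 : n = b * c * b⁻¹ := eq_mul_inv_of_mul_eq h6.symm
  have k1 : b * m⁻¹ = (a * l⁻¹)⁻¹ := by rw [e1, e3]; group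
  have k2 : c * n⁻¹ = (a * l⁻¹)⁻¹ := by rw [e2, e5]; group
  have k3 : c * n⁻¹ = (b * m⁻¹)⁻¹ := by rw [e4, e6]; group
  have k4 : a * l⁻¹ = c * n⁻¹ := by rw [k3, k1, inv_inv]
  have k5 : a * l⁻¹ = b * m⁻¹ := by rw [k1, ← k2, k4]
  refine ⟨k5, k4, ?_⟩
  nth_rewrite 1 [k5]
  rw [k1, inv_mul_cancel]

variable {Q : Type} {A : AL Q}

/-- commutative of exponent two -/
structure C2 (A : AL Q) : Prop where
  comm : ∀ x y, A.op x y = A.op y x
  sq : ∀ x, A.op x x = A.e

/-- preserving the ternary operation -/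
def Pf (A : AL Q) (g : Perm Q) : Prop := ∀ a b c, g (f A a b c) = f A (g a) (g b) (g c)

/-- the translations of the ternary operation -/
noncomputable def T (A : AL Q) (p q : Q) : Perm Q := A.L p * A.L (ld A p q) * (A.L p)⁻¹

theorem T_apply (p q c : Q) : T A p q c = f A p q c := by
  change A.op p (A.op (ld A p q) ((A.L p)⁻¹ c)) = A.op p (A.op (ld A p q) (ld A p c))
  have : (A.L p)⁻¹ c = ld A p c := by
    rw [Perm.inv_eq_iff_eq]; exact (op_ld p c).symm
  rw [this]

theorem pf_L (x : Q) : Pf A (A.L x) := fun a b c => f_equiv x a b c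

theorem pf_T (p q : Q) : Pf A (T A p q) := by
  intro a b c
  simp only [T_apply]
  exact f_dist p q a b c

theorem Pf.mul {g h : Perm Q} (hg : Pf A g) (hh : Pf A h) : Pf A (g * h) := by
  intro a b c
  simp only [Perm.mul_apply]
  rw [hh, hg]

theorem Pf.inv {g : Perm Q} (hg : Pf A g) : Pf A g⁻¹ := by
  intro a b c
  rw [Perm.inv_eq_iff_eq, hg]
  simp

theorem Pf.aut {g : Perm Q} (hg : Pf A g) (he : g A.e = A.e) : g ∈ A.Aut := by
  intro a b
  have := hg A.e a b
  rw [f_e, he, f_e] at this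
  exact this

theorem ld_aut {g : Perm Q} (hg : g ∈ A.Aut) (a b : Q) : g (ld A a b) = ld A (g a) (g b) := by
  apply inj (A := A) (g a)
  rw [op_ld, ← aut_apply hg, op_ld]

theorem pf_aut {g : Perm Q} (hg : g ∈ A.Aut) : Pf A g := by
  intro a b c
  unfold f
  rw [aut_apply hg, aut_apply hg, ld_aut hg, ld_aut hg]

theorem T_conj {g : Perm Q} (hg : Pf A g) (p q : Q) : g * T A p q = T A (g p) (g q) * g := by
  ext c
  rw [Perm.mul_apply, Perm.mul_apply, T_apply, T_apply, hg]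

theorem T_e (x : Q) : T A A.e x = A.L x := by
  ext c
  rw [T_apply, f_e]
  rfl

namespace C2

theorem f12 (h : C2 A) (x y z : Q) : f A x y z = f A y x z := f_symm_left h.sq x y z
theorem f23 (h : C2 A) (x y z : Q) : f A x y z = f A x z y := f_symm_right h.comm x y z
theorem fxx (_ : C2 A) (x y : Q) : f A x x y = y := by
  unfold f
  have : ld A x x = A.e := inj x (by rw [op_ld, A.idr])
  rw [this, A.idl, op_ld]
theorem fyy (h : C2 A) (x y : Q) : f A x y y = x := by
  rw [h.f12, h.f23, h.fxx]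
theorem T_symm (h : C2 A) (x y : Q) : T A x y = T A y x := by
  ext c; rw [T_apply, T_apply, h.f12]

theorem rel (h : C2 A) {x y z : Q} (hl : f A x y z = A.e) :
    T A x z * T A y z = A.L x * T A x z := by
  rw [T_conj (pf_T x z) y z, T_apply, T_apply, h.f23, hl, h.fyy, T_e]

/-- the involution of a line -/
theorem line (h : C2 A) {x y z : Q} (hl : f A x y z = A.e) :
    ∃ K ∈ A.Aut, K * K = 1 ∧ (∀ c, K (A.op x c) = f A y z c) ∧ (∀ c, K (A.op y c) = f A x z c) ∧
      (∀ c, K (A.op z c) = f A x y c) := by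
  have l1 : f A y x z = A.e := by rw [h.f12, hl]
  have l2 : f A x z y = A.e := by rw [h.f23, hl]
  have l3 : f A z x y = A.e := by rw [h.f12, l2]
  have l4 : f A z y x = A.e := by rw [h.f23, l3]
  have l5 : f A y z x = A.e := by rw [h.f12, l4]
  obtain ⟨k1, k2, k3⟩ := six (a := T A y z) (b := T A x z) (c := T A x y) (l := A.L x)
    (m := A.L y) (n := A.L z) (h.rel hl)
    (by rw [h.T_symm y z]; exact h.rel l2)
    (h.rel l1)
    (by rw [h.T_symm x y, h.T_symm x z]; exact h.rel l5)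
    (by rw [h.T_symm y z]; exact h.rel l3)
    (by rw [h.T_symm x z, h.T_symm x y]; exact h.rel l4)
  refine ⟨T A y z * (A.L x)⁻¹, ?_, k3, ?_, ?_, ?_⟩
  · apply ((pf_T y z).mul (pf_L x).inv).aut
    rw [Perm.mul_apply]
    have : (A.L x)⁻¹ A.e = x := by rw [Perm.inv_eq_iff_eq]; exact (h.sq x).symm
    rw [this, T_apply, l5]
  · intro c
    rw [Perm.mul_apply]
    have : (A.L x)⁻¹ (A.op x c) = c := by rw [Perm.inv_eq_iff_eq]; rfl
    rw [this, T_apply]
  · intro c
    rw [k1, Perm.mul_apply]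
    have : (A.L y)⁻¹ (A.op y c) = c := by rw [Perm.inv_eq_iff_eq]; rfl
    rw [this, T_apply]
  · intro c
    rw [k2, Perm.mul_apply]
    have : (A.L z)⁻¹ (A.op z c) = c := by rw [Perm.inv_eq_iff_eq]; rfl
    rw [this, T_apply]

/-- the sum -/
noncomputable def D (A : AL Q) (x y : Q) : Q := (A.L x)⁻¹ ((A.L (A.op x y))⁻¹ x)

theorem D_def (x y : Q) : A.op (A.op x y) (A.op x (D A x y)) = x := by
  change A.L (A.op x y) (A.L x ((A.L x)⁻¹ ((A.L (A.op x y))⁻¹ x))) = x
  simp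

theorem f_Dxy (h : C2 A) (x y : Q) : f A x y (D A x y) = A.e := f_D h.sq (D_def x y)

theorem D_iff (h : C2 A) {x y z : Q} : D A x y = z ↔ f A x y z = A.e := by
  constructor
  · rintro rfl; exact h.f_Dxy x y
  · intro hz
    exact f_inj ((h.f_Dxy x y).trans hz.symm)

theorem D_comm (h : C2 A) (x y : Q) : D A x y = D A y x := by
  rw [h.D_iff, h.f12]; exact h.f_Dxy y x

theorem D_e (h : C2 A) (x : Q) : D A A.e x = x := by
  rw [h.D_iff, f_e, h.sq]

theorem D_self (h : C2 A) (x : Q) : D A x x = A.e := by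
  rw [h.D_iff, h.fxx]

theorem D_left (h : C2 A) (x y z : Q) : D A x (D A y z) = D A y (D A x z) :=
  taskDiamond Q A h.comm h.sq (D A) D_def x y z

theorem D_assoc (h : C2 A) (x y z : Q) : D A (D A x y) z = D A x (D A y z) := by
  rw [h.D_comm (D A x y) z, h.D_left, h.D_comm z y]

/-- the elementary abelian group -/
def Vt (_ : C2 A) : Type := Q

noncomputable instance (h : C2 A) : Add h.Vt := ⟨fun x y => D A x y⟩
instance (h : C2 A) : Zero h.Vt := ⟨A.e⟩
instance (h : C2 A) : Neg h.Vt := ⟨fun x => x⟩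

noncomputable instance (h : C2 A) : AddCommGroup h.Vt where
  add_assoc := h.D_assoc
  zero_add := h.D_e
  add_zero x := (h.D_comm x A.e).trans (h.D_e x)
  neg_add_cancel := h.D_self
  add_comm := h.D_comm
  nsmul := nsmulRec
  zsmul := zsmulRec

/-- the product -/
def mu (h : C2 A) (x y : h.Vt) : h.Vt := A.op x y
/-- the ternary operation -/
noncomputable def tt (h : C2 A) (x y z : h.Vt) : h.Vt := f A x y z

theorem add_iff (h : C2 A) {x y z : h.Vt} : x + y = z ↔ h.tt x y z = 0 := h.D_iff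

theorem mu_comm (h : C2 A) (x y : h.Vt) : h.mu x y = h.mu y x := h.comm x y
theorem mu_self (h : C2 A) (x : h.Vt) : h.mu x x = 0 := h.sq x
theorem mu_zero (h : C2 A) (x : h.Vt) : h.mu x 0 = x := A.idr x
theorem tt12 (h : C2 A) (x y z : h.Vt) : h.tt x y z = h.tt y x z := h.f12 x y z
theorem tt23 (h : C2 A) (x y z : h.Vt) : h.tt x y z = h.tt x z y := h.f23 x y z
theorem tt0 (h : C2 A) (x y : h.Vt) : h.tt 0 x y = h.mu x y := f_e x y
theorem ttxx (h : C2 A) (x y : h.Vt) : h.tt x x y = y := h.fxx x y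
theorem mu_tt (h : C2 A) (g x y z : h.Vt) :
    h.mu g (h.tt x y z) = h.tt (h.mu g x) (h.mu g y) (h.mu g z) := f_equiv (A := A) g x y z
theorem mu_inj (h : C2 A) {x y z : h.Vt} (hh : h.mu x y = h.mu x z) : y = z := inj (A := A) x hh

/-- an automorphism as an additive map -/
noncomputable def lin (h : C2 A) (g : A.Aut) : AddMonoid.End h.Vt where
  toFun x := g.1 x
  map_zero' := aut_e g.2
  map_add' x y := by
    have e1 : h.tt x y (x + y) = 0 := h.add_iff.1 rfl
    have e2 : g.1 (f A x y (x + y)) = f A (g.1 x) (g.1 y) (g.1 (x + y)) := pf_aut g.2 x y (x + y)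
    have e3 : g.1 (f A x y (x + y)) = A.e := (congrArg g.1 e1).trans (aut_e g.2)
    exact (h.add_iff.2 (e2.symm.trans e3)).symm

theorem lin_mu (h : C2 A) (g : A.Aut) (x y : h.Vt) :
    h.lin g (h.mu x y) = h.mu (h.lin g x) (h.lin g y) := aut_apply g.2 x y

theorem sq_mem (h : C2 A) (x : Q) : A.L x * A.L x ∈ A.Aut := by
  have := theta_mem (A := A) x x
  rw [h.sq, L_e, inv_one, one_mul] at this
  exact this

/-- `φ x = L_x²` -/
noncomputable def phi (h : C2 A) (x : h.Vt) : AddMonoid.End h.Vt := h.lin ⟨_, h.sq_mem x⟩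

theorem phi_apply (h : C2 A) (x c : h.Vt) : h.phi x c = h.mu x (h.mu x c) := rfl

/-- the operators -/
noncomputable def ww (h : C2 A) (x : h.Vt) : AddMonoid.End h.Vt := h.phi x + 1

theorem ww_apply (h : C2 A) (x c : h.Vt) : h.ww x c = h.phi x c + c := rfl

theorem two (h : C2 A) (v : h.Vt) : v + v = 0 := h.D_self v

theorem twoE (h : C2 A) (a : AddMonoid.End h.Vt) : a + a = 0 := by
  ext v; exact h.two (a v)

theorem cancel (h : C2 A) {a b : h.Vt} (hab : a + b = 0) : a = b := by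
  calc a = a + (b + b) := by rw [h.two, add_zero]
    _ = (a + b) + b := by abel
    _ = b := by rw [hab, zero_add]

/-- PROD -/
theorem prod (h : C2 A) (x c : h.Vt) : h.phi x c + h.phi c x = h.mu x c := by
  rw [h.add_iff, phi_apply, phi_apply]
  have h1 := h.mu_tt (h.mu x c) 0 x c
  rw [h.tt0, h.mu_self, h.mu_zero, h.mu_comm (h.mu x c) x, h.mu_comm (h.mu x c) c,
    h.mu_comm x c] at h1
  rw [h.mu_comm x c, h.tt23, h.tt12]
  exact h1.symm

/-- the involution of a line, as an additive map -/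
theorem kap (h : C2 A) (x y : h.Vt) : ∃ g : A.Aut,
    (∀ c, h.lin g (h.mu x c) = h.tt y (x + y) c) ∧ (∀ c, h.lin g (h.mu y c) = h.tt x (x + y) c) ∧
    (∀ c, h.lin g (h.mu (x + y) c) = h.tt x y c) ∧ (∀ c, h.lin g (h.lin g c) = c) := by
  have hl : f A x y (x + y) = A.e := h.add_iff.1 rfl
  obtain ⟨K, hK, h1, h2, h3, h4⟩ := h.line hl
  refine ⟨⟨K, hK⟩, h2, h3, h4, fun c => ?_⟩
  exact congrArg (fun g : Perm Q => g c) h1

/-- DER -/
theorem der (h : C2 A) (x y : h.Vt) {g : A.Aut}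
    (h1 : ∀ c, h.lin g (h.mu x c) = h.tt y (x + y) c)
    (h2 : ∀ c, h.lin g (h.mu y c) = h.tt x (x + y) c)
    (h3 : ∀ c, h.lin g (h.mu (x + y) c) = h.tt x y c) (h4 : ∀ c, h.lin g (h.lin g c) = c)
    (c : h.Vt) : h.lin g c = h.mu x c + (h.mu y c + h.mu (x + y) c) := by
  set z := x + y with hz
  have hl : h.tt x y z = 0 := h.add_iff.1 rfl
  set a := h.mu x c with ha
  set b := h.mu y c with hb
  set d := h.mu z c with hd
  have hm : c = h.tt a b d := by
    have := h.mu_tt c x y z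
    rw [hl, h.mu_zero, h.mu_comm c x, h.mu_comm c y, h.mu_comm c z] at this
    exact this
  have hbd : h.tt b d (b + d) = 0 := h.add_iff.1 rfl
  have habd : h.tt a (b + d) (a + (b + d)) = 0 := h.add_iff.1 rfl
  have hs : h.mu c (h.lin g b) = h.mu d a := by
    rw [hb, h2, h.mu_tt, h.mu_self, ha, hd, h.mu_comm c x, h.mu_comm c z, h.tt23, h.tt12, h.tt0,
      h.mu_comm]
  have hr : h.mu c (h.lin g a) = h.mu d b := by
    rw [ha, h1, h.mu_tt, h.mu_self, hb, hd, h.mu_comm c y, h.mu_comm c z, h.tt23, h.tt12, h.tt0,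
      h.mu_comm]
  have hk : h.mu d (a + (b + d)) = h.mu (h.lin g a) (h.lin g b) :=
    key (A := A) h.comm h.sq (a := a) (b := b) (d := d) (g := b + d) (h := a + (b + d))
      (s := h.lin g b) (r := h.lin g a) (m := c) hm hbd habd hs hr
  rw [← h.lin_mu] at hk
  have hab : h.mu a b = h.mu c (h.lin g d) := by
    rw [hd, h3, h.mu_tt, h.mu_self, h.mu_comm c x, h.mu_comm c y, h.tt23, h.tt12, h.tt0]
  rw [hab, h.lin_mu, h4, h.mu_comm _ d] at hk
  exact (h.mu_inj hk).symm

end C2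

end Pool.Agent.TH427.AM2
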