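import Pool.Agent.TH427.AM2.Cale

/-!
A finite commutative automorphic loop of exponent two without proper nontrivial characteristic
subloops is a group.
-/

set_option autoImplicit false

namespace Pool.Agent.TH427.AM2

open Pool.Agent.H687R3.AL Pool.Agent.H687R3.AL.AL Pool.Agent.H687R3.AL.Diamond Equiv

variable {Q : Type} {A : AL Q}

namespace C2

/-- identity ID -/
theorem kp_lin (h : C2 A) (x y : h.Vt) {g : A.Aut}
    (hd : ∀ c, h.lin g c = h.mu x c + (h.mu y c + h.mu (x + y) c)) :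
    h.lin g = 1 + kp h.ww x y := by
  ext c
  have e0 : (1 + kp h.ww x y) c = c + (h.phi x c + c + (h.phi y c + c) + (h.phi (x + y) c + c)) :=
    rfl
  rw [e0, hd, ← h.prod x c, ← h.prod y c, ← h.prod (x + y) c]
  have e1 : h.phi c (x + y) = h.phi c x + h.phi c y := map_add _ _ _
  rw [e1]
  have t1 := h.two (h.phi c x)
  have t2 := h.two (h.phi c y)
  have t3 := h.two c
  calc h.phi x c + h.phi c x + (h.phi y c + h.phi c y +
        (h.phi (x + y) c + (h.phi c x + h.phi c y)))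
      = (h.phi x c + h.phi y c + h.phi (x + y) c) + (h.phi c x + h.phi c x) +
        (h.phi c y + h.phi c y) := by abel
    _ = (h.phi x c + h.phi y c + h.phi (x + y) c) + (c + c) + (c + c) := by
        rw [t1, t2, t3]
    _ = _ := by abel

theorem kap' (h : C2 A) (x y : h.Vt) : ∃ g : A.Aut, h.lin g = 1 + kp h.ww x y ∧
    (∀ c, h.lin g c = c + kp h.ww x y c) ∧
    (∀ c, h.lin g (h.mu x c) = h.tt y (x + y) c) ∧ (∀ c, h.lin g (h.mu y c) = h.tt x (x + y) c) ∧
    (∀ c, h.lin g (h.mu (x + y) c) = h.tt x y c) ∧ (∀ c, h.lin g (h.lin g c) = c) ∧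
    (∀ c, h.lin g c = h.mu x c + (h.mu y c + h.mu (x + y) c)) := by
  obtain ⟨g, h1, h2, h3, h4⟩ := h.kap x y
  have hd := h.der x y h1 h2 h3 h4
  have hk := h.kp_lin x y hd
  exact ⟨g, hk, fun c => by rw [hk]; rfl, h1, h2, h3, h4, hd⟩

theorem ww_ww (h : C2 A) (x c : h.Vt) : h.ww x c + h.ww c x = h.mu x c + (x + c) := by
  rw [ww_apply, ww_apply, ← h.prod x c]
  abel

theorem D_id (h : C2 A) (x c : h.Vt) : h.ww x c + h.ww c x = kp h.ww x c (x + c) := by
  obtain ⟨g, -, h0, h1, -, -, h4, -⟩ := h.kap' x c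
  have e1 : h.lin g (h.mu x c) = x + c := by
    rw [h1, h.tt23, h.ttxx]
  have e2 : h.lin g (x + c) = h.mu x c := by rw [← e1, h4]
  rw [ww_ww]
  have e3 := h0 (x + c)
  rw [e2] at e3
  rw [e3]
  have := h.two (x + c)
  calc x + c + kp h.ww x c (x + c) + (x + c) = (x + c + (x + c)) + kp h.ww x c (x + c) := by abel
    _ = _ := by rw [this, zero_add]

theorem F_id (h : C2 A) (p q r : h.Vt) :
    kp h.ww p q (h.ww (p + q) r + h.ww r (p + q)) =
      h.tt p q r + (h.mu p q + h.mu p r + h.mu q r) + (p + q + r) := by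
  obtain ⟨g, -, h0, h1, -, h3, h4, h5⟩ := h.kap' p q
  rw [ww_ww]
  set s := h.mu (p + q) r + (p + q + r) with hs
  have e1 : h.lin g (h.mu p q) = p + q := by
    rw [h1, h.tt23, h.ttxx]
  have e2 : h.lin g (p + q) = h.mu p q := by rw [← e1, h4]
  have e3 : kp h.ww p q s = h.lin g s + s := by
    rw [h0]
    have := h.two s
    calc kp h.ww p q s = (s + s) + kp h.ww p q s := by rw [this, zero_add]
      _ = _ := by abel
  have e4 : h.lin g s = h.tt p q r + (h.mu p q + (h.mu p r + (h.mu q r + h.mu (p + q) r))) := by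
    rw [hs, map_add, h3, map_add, e2, h5 r]
  rw [e3, e4, hs]
  have := h.two (h.mu (p + q) r)
  calc h.tt p q r + (h.mu p q + (h.mu p r + (h.mu q r + h.mu (p + q) r))) +
        (h.mu (p + q) r + (p + q + r))
      = (h.tt p q r + (h.mu p q + h.mu p r + h.mu q r) + (p + q + r)) +
        (h.mu (p + q) r + h.mu (p + q) r) := by abel
    _ = _ := by rw [this, add_zero]

theorem alg (h : C2 A) : Alg h.ww where
  two := h.two
  zero := by
    ext c
    change h.mu 0 (h.mu 0 c) + c = 0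
    rw [h.mu_comm 0 c, h.mu_zero, h.mu_comm 0 c, h.mu_zero, h.two]
  sq x y v := by
    obtain ⟨g, -, h0, -, -, -, h4, -⟩ := h.kap' x y
    have e3 : ∀ s, kp h.ww x y s = h.lin g s + s := by
      intro s
      rw [h0]
      have := h.two s
      calc kp h.ww x y s = (s + s) + kp h.ww x y s := by rw [this, zero_add]
        _ = _ := by abel
    rw [e3, e3, map_add, h4]
    have t1 := h.two v
    have t2 := h.two (h.lin g v)
    calc v + h.lin g v + (h.lin g v + v) = (v + v) + (h.lin g v + h.lin g v) := by abel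
      _ = 0 := by rw [t1, t2, add_zero]
  D := h.D_id
  S p q r := by
    rw [h.F_id, h.F_id, h.tt23 p q r, h.mu_comm q r]
    abel

/-- the action of the automorphism group -/
noncomputable def rho (h : C2 A) : A.Aut →* AddMonoid.End h.Vt where
  toFun := h.lin
  map_one' := rfl
  map_mul' _ _ := rfl

theorem symm (h : C2 A)
    (hirr : ∀ S : Set Q, A.e ∈ S → (∀ a ∈ S, ∀ b ∈ S, A.op a b ∈ S) →
      (∀ g ∈ A.Aut, ∀ a ∈ S, g a ∈ S) → (∀ a ∈ S, a = A.e) ∨ ∀ a, a ∈ S) :
    Sym h.ww A.Aut h.rho where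
  inj := by
    intro g g' hg
    apply Subtype.ext
    ext x
    exact congrArg (fun k : AddMonoid.End h.Vt => k x) hg
  equi g x y := by
    change h.mu (h.lin g x) (h.mu (h.lin g x) (h.lin g y)) + h.lin g y =
      h.lin g (h.mu x (h.mu x y) + y)
    rw [map_add, h.lin_mu, h.lin_mu]
  kap x y := by
    obtain ⟨g, h1, -⟩ := h.kap' x y
    exact ⟨g, h1⟩
  irr W hW := by
    have h1 := hirr {x | (x : h.Vt) ∈ W} W.zero_mem (by
      intro a ha b hb
      have e : (A.op a b : h.Vt) = h.phi a b + h.phi b a := (h.prod (a : h.Vt) b).symm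
      change (A.op a b : h.Vt) ∈ W
      rw [e]
      exact W.add_mem (hW _ _ hb) (hW _ _ ha)) (by
      intro g hg a ha
      exact hW ⟨g, hg⟩ a ha)
    rcases h1 with h1 | h1
    · left
      rw [eq_bot_iff]
      intro x hx
      exact (AddSubgroup.mem_bot).2 (h1 x hx)
    · right
      rw [eq_top_iff]
      intro x _
      exact h1 x

end C2

/-- the core theorem -/
theorem core [Finite Q] (A : AL Q) (hc : ∀ x y, A.op x y = A.op y x) (hs : ∀ x, A.op x x = A.e)
    (hirr : ∀ S : Set Q, A.e ∈ S → (∀ a ∈ S, ∀ b ∈ S, A.op a b ∈ S) →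
      (∀ g ∈ A.Aut, ∀ a ∈ S, g a ∈ S) → (∀ a ∈ S, a = A.e) ∨ ∀ a, a ∈ S) (x y z : Q) :
    A.op (A.op x y) z = A.op x (A.op y z) := by
  have h : C2 A := ⟨hc, hs⟩
  have : Finite h.Vt := inferInstanceAs (Finite Q)
  have h1 : ∀ x y, kp h.ww x y = 0 := (h.symm hirr).kp_eq_zero h.alg
  have h2 : ∀ x y : h.Vt, h.mu x y = x + y := by
    intro x y
    have h3 := h.D_id x y
    rw [h.ww_ww, h1] at h3
    exact h.cancel h3
  have h3 : ∀ x y z : h.Vt, h.mu (h.mu x y) z = h.mu x (h.mu y z) := by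
    intro x y z
    rw [h2, h2, h2, h2, add_assoc]
  exact h3 x y z

end Pool.Agent.TH427.AM2
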