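import Mathlib

/-!
Difference operators on functions between abelian groups of exponent two.
-/

set_option autoImplicit false

namespace Pool.Agent.TH427.AM2

section

variable {V M N : Type*} [AddCommGroup V] [AddCommGroup M] [AddCommGroup N]

/-- the difference operator in direction `a` (in exponent two) -/
def df (a : V) (f : V → M) : V → M := fun x => f (x + a) + f x

/-- iterated differences -/
def dl (L : List V) (f : V → M) : V → M := L.foldr df f

@[simp] theorem dl_nil (f : V → M) : dl [] f = f := rfl
@[simp] theorem dl_cons (a : V) (L : List V) (f : V → M) : dl (a :: L) f = df a (dl L f) := rfl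

theorem df_comm (a b : V) (f : V → M) : df a (df b f) = df b (df a f) := by
  funext x
  simp only [df]
  rw [add_right_comm x a b]
  abel

theorem dl_df (L : List V) (a : V) (f : V → M) : dl L (df a f) = df a (dl L f) := by
  induction L with
  | nil => rfl
  | cons b L ih => rw [dl_cons, dl_cons, ih, df_comm]

theorem dl_append (L L' : List V) (f : V → M) : dl (L ++ L') f = dl L (dl L' f) := by
  simp [dl, List.foldr_append]

theorem dl_comm (L L' : List V) (f : V → M) : dl L (dl L' f) = dl L' (dl L f) := by
  induction L with
  | nil => rfl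
  | cons a L ih => rw [dl_cons, dl_cons, ih, dl_df]

theorem df_add (a : V) (f g : V → M) : df a (fun x => f x + g x) = fun x => df a f x + df a g x := by
  funext x
  simp only [df]
  abel

theorem dl_add (L : List V) (f g : V → M) :
    dl L (fun x => f x + g x) = fun x => dl L f x + dl L g x := by
  induction L with
  | nil => rfl
  | cons a L ih => rw [dl_cons, ih, df_add]; rfl

theorem df_map (φ : M →+ N) (a : V) (f : V → M) : df a (fun x => φ (f x)) = fun x => φ (df a f x) := by
  funext x
  simp only [df, map_add]

theorem dl_map (φ : M →+ N) (L : List V) (f : V → M) :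
    dl L (fun x => φ (f x)) = fun x => φ (dl L f x) := by
  induction L with
  | nil => rfl
  | cons a L ih => rw [dl_cons, ih, df_map]; rfl

theorem dl_shift (L : List V) (f : V → M) (c : V) :
    dl L (fun x => f (c + x)) = fun x => dl L f (c + x) := by
  induction L with
  | nil => rfl
  | cons a L ih =>
    rw [dl_cons, ih, dl_cons]
    funext x
    simp only [df, add_assoc]

theorem dl_shift' (L : List V) (f : V → M) (c : V) :
    dl L (fun x => f (x + c)) = fun x => dl L f (x + c) := by
  have := dl_shift L f c
  simpa only [add_comm c] using this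

theorem dl_zero (L : List V) : dl L (fun _ : V => (0 : M)) = fun _ => 0 := by
  induction L with
  | nil => rfl
  | cons a L ih => rw [dl_cons, ih]; funext x; simp [df]

theorem dl_const (hM : ∀ m : M, m + m = 0) {L : List V} (hL : 1 ≤ L.length) (c : M) :
    dl L (fun _ : V => c) = fun _ => 0 := by
  match L, hL with
  | a :: L, _ =>
    rw [dl_cons, ← dl_df]
    have : df a (fun _ : V => c) = fun _ => (0 : M) := by funext x; exact hM c
    rw [this, dl_zero]

theorem dl_lin (hM : ∀ m : M, m + m = 0) {L : List V} (hL : 2 ≤ L.length) (φ : V →+ M) :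
    dl L (fun x : V => φ x) = fun _ => 0 := by
  match L, hL with
  | a :: b :: L, _ =>
    rw [dl_cons, ← dl_df, dl_cons, ← dl_df]
    have : df b (df a (fun x : V => φ x)) = fun _ => (0 : M) := by
      funext x
      simp only [df, map_add]
      have h1 := hM (φ x)
      have h2 := hM (φ a)
      have h3 := hM (φ b)
      calc φ x + φ b + φ a + (φ x + φ b) + (φ x + φ a + φ x)
          = (φ x + φ x) + (φ x + φ x) + (φ a + φ a) + (φ b + φ b) := by abel
        _ = 0 := by rw [h1, h2, h3]; simp
    rw [this, dl_zero]

theorem df_lin (hM : ∀ m : M, m + m = 0) (a : V) (φ : V →+ M) :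
    df a (fun x : V => φ x) = fun _ => φ a := by
  funext x
  simp only [df, map_add]
  rw [add_right_comm, hM, zero_add]

theorem df_dup (hV : ∀ v : V, v + v = 0) (hM : ∀ m : M, m + m = 0) (a : V) (f : V → M) :
    df a (df a f) = fun _ => 0 := by
  funext x
  simp only [df, add_assoc, hV, add_zero]
  have h1 := hM (f x)
  have h2 := hM (f (x + a))
  calc f x + (f (x + a) + (f (x + a) + f x)) = (f x + f x) + (f (x + a) + f (x + a)) := by abel
    _ = 0 := by rw [h1, h2, add_zero]

theorem dl_perm {L L' : List V} (h : L.Perm L') (f : V → M) : dl L f = dl L' f := by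
  induction h with
  | nil => rfl
  | cons a _ ih => rw [dl_cons, dl_cons, ih]
  | swap a b L => rw [dl_cons, dl_cons, dl_cons, dl_cons, df_comm]
  | trans _ _ h1 h2 => rw [h1, h2]

theorem dl_dup (hV : ∀ v : V, v + v = 0) (hM : ∀ m : M, m + m = 0) {L : List V}
    (h : ¬ L.Nodup) (f : V → M) : dl L f = fun _ => 0 := by
  classical
  induction L with
  | nil => exact absurd List.nodup_nil h
  | cons a L ih =>
    by_cases hL : L.Nodup
    · have ha : a ∈ L := by
        by_contra hna
        exact h (List.nodup_cons.2 ⟨hna, hL⟩)
      rw [dl_cons, dl_perm (List.perm_cons_erase ha), dl_cons, df_dup hV hM]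
    · rw [dl_cons, ih hL]
      funext x
      simp [df]

/-- all `n`-fold differences vanish -/
def DegLt (n : ℕ) (f : V → M) : Prop := ∀ L : List V, L.length = n → dl L f = fun _ => 0

theorem DegLt.long {n : ℕ} {f : V → M} (h : DegLt n f) {L : List V} (hL : n ≤ L.length) :
    dl L f = fun _ => 0 := by
  rw [← List.take_append_drop (L.length - n) L, dl_append,
    h _ (by rw [List.length_drop]; omega), dl_zero]

theorem degLt_card [Finite V] (hV : ∀ v : V, v + v = 0) (hM : ∀ m : M, m + m = 0) (f : V → M) :
    DegLt (Nat.card V + 1) f := by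
  intro L hL
  apply dl_dup hV hM
  intro hn
  have := Fintype.ofFinite V
  have h1 := hn.length_le_card
  rw [hL, Nat.card_eq_fintype_card] at h1
  omega

theorem DegLt.df {n : ℕ} {f : V → M} (h : DegLt (n + 1) f) (a : V) : DegLt n (df a f) := by
  intro L hL
  rw [dl_df, ← dl_cons]
  exact h _ (by simp [hL])

theorem degLt_of_df {n : ℕ} {f : V → M} (h : ∀ a, DegLt n (AM2.df a f)) : DegLt (n + 1) f := by
  intro L hL
  match L, hL with
  | a :: L, hL =>
    rw [dl_cons, ← dl_df]
    exact h a L (by simpa using hL)

theorem DegLt.add {n : ℕ} {f g : V → M} (hf : DegLt n f) (hg : DegLt n g) :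
    DegLt n (fun x => f x + g x) := by
  intro L hL
  rw [dl_add, hf L hL, hg L hL]
  funext x; simp

theorem DegLt.succ {n : ℕ} {f : V → M} (h : DegLt n f) : DegLt (n + 1) f := by
  intro L hL
  exact h.long (by omega)

theorem DegLt.shift {n : ℕ} {f : V → M} (h : DegLt n f) (c : V) :
    DegLt n (fun x => f (x + c)) := by
  intro L hL
  rw [dl_shift', h L hL]

theorem DegLt.map {n : ℕ} {f : V → M} (h : DegLt n f) (φ : M →+ N) :
    DegLt n (fun x => φ (f x)) := by
  intro L hL
  rw [dl_map, h L hL]
  funext x; simp

/-- the constant value of a maximal iterated difference -/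
theorem DegLt.const {n : ℕ} {f : V → M} (hM : ∀ m : M, m + m = 0) (h : DegLt (n + 1) f)
    {L : List V} (hL : L.length = n) (x : V) : dl L f x = dl L f 0 := by
  have h1 := congrFun (h (x :: L) (by simp [hL])) 0
  rw [dl_cons] at h1
  simp only [AM2.df, zero_add] at h1
  have h2 := hM (dl L f 0)
  calc dl L f x = dl L f x + (dl L f 0 + dl L f 0) := by rw [h2, add_zero]
    _ = (dl L f x + dl L f 0) + dl L f 0 := by abel
    _ = dl L f 0 := by rw [h1, zero_add]

theorem dl_mem (S : AddSubgroup M) (L : List V) (f : V → M) (h : ∀ x, f x ∈ S) (x : V) :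
    dl L f x ∈ S := by
  induction L generalizing x with
  | nil => exact h x
  | cons a L ih => exact S.add_mem (ih _) (ih _)

end

end Pool.Agent.TH427.AM2
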