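import Pool.Agent.TH427.AM2.Nil
import Pool.Agent.H687R3.AL.BaerSuzuki

/-!
An irreducible group of symmetries forces `κ' = 0`.
-/

set_option autoImplicit false

namespace Pool.Agent.TH427.AM2

section

variable {V : Type} [AddCommGroup V]

/-- symmetries of the data -/
structure Sym (w : V → AddMonoid.End V) (G : Type) [Group G] (ρ : G →* AddMonoid.End V) :
    Prop where
  inj : Function.Injective ρ
  equi : ∀ g x y, w (ρ g x) (ρ g y) = ρ g (w x y)
  kap : ∀ x y, ∃ k : G, ρ k = 1 + kp w x y
  irr : ∀ W : AddSubgroup V, (∀ g, ∀ v ∈ W, ρ g v ∈ W) → W = ⊥ ∨ W = ⊤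

namespace Sym

variable {w : V → AddMonoid.End V} {G : Type} [Group G] {ρ : G →* AddMonoid.End V}

theorem inv_ap (g : G) (v : V) : ρ g (ρ g⁻¹ v) = v := by
  rw [← emul, ← map_mul, mul_inv_cancel, map_one]; rfl

theorem ap_inv (g : G) (v : V) : ρ g⁻¹ (ρ g v) = v := by
  rw [← emul, ← map_mul, inv_mul_cancel, map_one]; rfl

theorem dl_equi (s : Sym w G ρ) (g : G) (L : List V) (x v : V) :
    (dl (L.map (ρ g)) w (ρ g x)) (ρ g v) = ρ g ((dl L w x) v) := by
  induction L generalizing x with
  | nil => exact s.equi g x v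
  | cons a L ih =>
    rw [List.map_cons, dl_cons, dl_cons]
    simp only [df, eadd]
    rw [← map_add, ih, ih, map_add]

theorem kp_equi (s : Sym w G ρ) (g : G) (x y v : V) :
    kp w (ρ g x) (ρ g y) (ρ g v) = ρ g (kp w x y v) := by
  unfold kp
  simp only [eadd, map_add]
  rw [← map_add, s.equi, s.equi, s.equi]

variable [Finite V]

theorem descend (h : Alg w) (s : Sym w G ρ) {d : ℕ} (hd : 3 ≤ d) (hw : DegLt (d + 1) w) :
    DegLt d w := by
  by_cases hV : Nontrivial V
  swap
  · have hs : Subsingleton V := not_nontrivial_iff_subsingleton.1 hV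
    intro L _
    funext x
    ext v
    exact Subsingleton.elim _ _
  obtain ⟨v, hv, hv'⟩ := common_kernel {T : AddMonoid.End V | ∃ L : List V, L.length = d ∧
    T = dl L w 0} (by
      rintro _ ⟨P, hP, rfl⟩ _ ⟨R, hR, rfl⟩
      exact h.top_comm hd hw hP hR) (by
      rintro _ ⟨P, hP, rfl⟩
      exact ⟨4, h.top_nil hd hw hP⟩)
  let W : AddSubgroup V :=
    { carrier := {v | ∀ L : List V, L.length = d → (dl L w 0) v = 0}
      add_mem' := by
        intro a b ha hb L hL
        rw [map_add, ha L hL, hb L hL, add_zero]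
      zero_mem' := by
        intro L _
        exact map_zero _
      neg_mem' := by
        intro a ha L hL
        rw [map_neg, ha L hL, neg_zero] }
  have hW : W = ⊥ ∨ W = ⊤ := s.irr W (by
    intro g v hv L hL
    have h1 := s.dl_equi g (L.map (ρ g⁻¹)) 0 v
    rw [List.map_map] at h1
    have h2 : (ρ g : V → V) ∘ (ρ g⁻¹) = id := funext fun v => inv_ap g v
    rw [h2, List.map_id, map_zero, hv _ (by simpa using hL), map_zero] at h1
    exact h1)
  rcases hW with hW | hW
  · exfalso
    have : v ∈ W := fun L hL => hv' _ ⟨L, hL, rfl⟩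
    rw [hW, AddSubgroup.mem_bot] at this
    exact hv this
  · intro L hL
    funext x
    rw [DegLt.const h.twoE hw hL x]
    ext u
    have : u ∈ W := by rw [hW]; exact AddSubgroup.mem_top u
    exact this L hL

theorem deg_three (h : Alg w) (s : Sym w G ρ) : DegLt 3 w := by
  have key : ∀ n : ℕ, DegLt (n + 3) w → DegLt 3 w := by
    intro n
    induction n with
    | zero => exact fun h => h
    | succ n ih =>
      intro hw
      apply ih
      have e : n + 1 + 3 = (n + 3) + 1 := by ring
      rw [e] at hw
      exact s.descend h (by omega) hw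
  apply key (Nat.card V + 1)
  have := degLt_card h.two h.twoE w
  exact this.succ.succ.succ

end Sym

/-! degree two -/

/-- the quadratic case -/
structure Quad (w : V → AddMonoid.End V) : Prop extends Alg w where
  addl : ∀ x y z, kp w (x + y) z = kp w x z + kp w y z

namespace Quad

variable {w : V → AddMonoid.End V}

theorem of_deg (h : Alg w) (hd : DegLt 3 w) : Quad w := by
  refine ⟨h, fun x y z => ?_⟩
  have h1 := congrFun (hd [x, y, z] rfl) 0
  simp only [dl_cons, dl_nil, df, zero_add] at h1
  rw [h.zero, add_zero] at h1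
  unfold kp
  have hx := h.twoE (w x)
  have hy := h.twoE (w y)
  have hz := h.twoE (w z)
  apply h.cancelE
  calc w (x + y) + w z + w (x + y + z) + (w x + w z + w (x + z) + (w y + w z + w (y + z)))
      = (w (x + y + z) + w (x + y) + (w (x + z) + w x) + (w (y + z) + w y + w z)) +
        (w z + w z) := by abel
    _ = 0 := by rw [h1, hz, add_zero]

theorem addr (h : Quad w) (x y z : V) : kp w x (y + z) = kp w x y + kp w x z := by
  rw [Alg.kp_comm, h.addl, Alg.kp_comm, Alg.kp_comm w z]

/-- commutation -/
theorem com (h : Quad w) (x y z v : V) :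
    kp w x y (kp w x z v) = kp w x z (kp w x y v) := by
  have h1 := h.sq x (y + z) v
  rw [h.addr, eadd, eadd, map_add, map_add, h.sq, h.sq, zero_add, add_zero] at h1
  exact h.cancel h1

/-- the cyclic identity -/
theorem cyc (h : Quad w) (x y c : V) : kp w x y c = kp w x c y + kp w y c x := by
  have h1 := h.D (x + y) c
  have h2 := h.D x c
  have h3 := h.D y c
  rw [h.w_add, h.addl, map_add (w c), eadd] at h1
  have e : kp w x c (x + y + c) = kp w x c (x + c) + kp w x c y := by
    rw [← map_add]; congr 1; abel
  have e' : kp w y c (x + y + c) = kp w y c (y + c) + kp w y c x := by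
    rw [← map_add]; congr 1; abel
  rw [e, e', ← h2, ← h3] at h1
  have h4 := h.two (w x c)
  have h5 := h.two (w y c)
  have h6 := h.two (w c x)
  have h7 := h.two (w c y)
  calc kp w x y c = (w x c + w x c) + (w y c + w y c) + (w c x + w c x) + (w c y + w c y) +
        kp w x y c := by rw [h4, h5, h6, h7]; simp
    _ = (w x c + w y c + kp w x y c + (w c x + w c y)) +
        (w x c + w c x) + (w y c + w c y) := by abel
    _ = (w x c + w c x + kp w x c y + (w y c + w c y + kp w y c x)) +
        (w x c + w c x) + (w y c + w c y) := by rw [h1]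
    _ = (w x c + w x c) + (w y c + w y c) + (w c x + w c x) + (w c y + w c y) +
        (kp w x c y + kp w y c x) := by abel
    _ = _ := by rw [h4, h5, h6, h7]; simp

theorem f_id (h : Quad w) (p q r : V) :
    kp w p r (kp w p q (p + q + r)) = kp w p r (kp w q r (p + q + r)) := by
  have h1 := h.F_13 p q r
  unfold Alg.F at h1
  rw [h.D, h.D, h.addl, h.addl] at h1
  simp only [eadd, map_add (kp w p q), map_add (kp w r q)] at h1
  have e : r + q + p = p + q + r := by abel
  rw [e] at h1
  rw [Alg.kp_comm w r q, Alg.kp_comm w r p, Alg.kp_comm w q p] at h1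
  have hc : kp w p q (kp w q r (p + q + r)) = kp w q r (kp w p q (p + q + r)) := by
    rw [Alg.kp_comm w p q]; exact h.com q p r _
  rw [hc] at h1
  have h2 := add_right_cancel h1
  rw [h.com p r q, h2, Alg.kp_comm w q r, Alg.kp_comm w p r]
  exact h.com r q p _

theorem W0 (h : Quad w) (p q q' r : V) : kp w p r (kp w q q' (p + r)) = 0 := by
  have h1 := h.f_id p (q + q') r
  have h2 := h.f_id p q r
  have h3 := h.f_id p q' r
  rw [h.addr, h.addl] at h1
  have e : p + (q + q') + r = (p + q + r) + q' := by abel
  have e' : (p + q + r) + q' = (p + q' + r) + q := by abel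
  rw [e] at h1
  simp only [eadd] at h1
  rw [map_add (kp w p q) (p + q + r) q', map_add (kp w q r) (p + q + r) q', e',
    map_add (kp w p q') (p + q' + r) q, map_add (kp w q' r) (p + q' + r) q] at h1
  simp only [map_add (kp w p r)] at h1
  rw [h2, h3] at h1
  have h4 : kp w p r (kp w p q q') + kp w p r (kp w p q' q) =
      kp w p r (kp w q r q') + kp w p r (kp w q' r q) := by
    have := congrArg (fun t => t + (kp w p r (kp w q r (p + q + r)) +
      kp w p r (kp w q' r (p + q' + r)))) h1
    have h5 := h.two (kp w p r (kp w q r (p + q + r)))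
    have h6 := h.two (kp w p r (kp w q' r (p + q' + r)))
    calc kp w p r (kp w p q q') + kp w p r (kp w p q' q)
        = kp w p r (kp w p q q') + kp w p r (kp w p q' q) +
          (kp w p r (kp w q r (p + q + r)) + kp w p r (kp w q r (p + q + r))) +
          (kp w p r (kp w q' r (p + q' + r)) + kp w p r (kp w q' r (p + q' + r))) := by
          rw [h5, h6, add_zero, add_zero]
      _ = kp w p r (kp w q r (p + q + r)) + kp w p r (kp w p q q') +
          (kp w p r (kp w q' r (p + q' + r)) + kp w p r (kp w p q' q)) +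
          (kp w p r (kp w q r (p + q + r)) + kp w p r (kp w q' r (p + q' + r))) := by abel
      _ = kp w p r (kp w q r (p + q + r)) + kp w p r (kp w q r q') +
          (kp w p r (kp w q' r (p + q' + r)) + kp w p r (kp w q' r q)) +
          (kp w p r (kp w q r (p + q + r)) + kp w p r (kp w q' r (p + q' + r))) := this
      _ = kp w p r (kp w q r q') + kp w p r (kp w q' r q) +
          (kp w p r (kp w q r (p + q + r)) + kp w p r (kp w q r (p + q + r))) +
          (kp w p r (kp w q' r (p + q' + r)) + kp w p r (kp w q' r (p + q' + r))) := by abel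
      _ = _ := by rw [h5, h6, add_zero, add_zero]
  rw [← map_add, ← map_add] at h4
  have e5 : kp w p q q' + kp w p q' q = kp w q q' p := by
    rw [h.cyc q q' p, Alg.kp_comm w p q, Alg.kp_comm w p q']
  have e6 : kp w q r q' + kp w q' r q = kp w q q' r := (h.cyc q q' r).symm
  rw [e5, e6] at h4
  rw [map_add, map_add, h4, h.two]

theorem W1 (h : Quad w) (p q q' r : V) : kp w p r (kp w q q' p) = 0 := by
  have h1 := h.W0 p q q' r
  have h2 := h.W0 p q q' (p + r)
  rw [h.kp_line] at h2
  have e : p + (p + r) = r := by rw [← add_assoc, h.two, zero_add]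
  rw [e] at h2
  rw [map_add, map_add, h2, add_zero] at h1
  exact h1

/-- polarised form -/
theorem W2 (h : Quad w) (x y a b z : V) :
    kp w x y (kp w a b z) = kp w z y (kp w a b x) := by
  have h1 := h.W1 (x + z) a b y
  rw [h.addl, eadd, map_add, map_add, map_add, h.W1, h.W1, zero_add, add_zero] at h1
  exact h.cancel h1

theorem ABA (h : Quad w) (a b c d z : V) :
    kp w a b (kp w c d (kp w a b z)) = 0 := by
  set u := kp w a b z with hu
  -- move `u`
  have e1 : kp w a b (kp w c d u) = kp w u b (kp w c d a) := h.W2 a b c d u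
  have e2 : kp w c d a = kp w c a d + kp w d a c := h.cyc c d a
  have e3 : kp w u b (kp w c a d) = kp w d b (kp w c a u) := h.W2 u b c a d
  have e4 : kp w u b (kp w d a c) = kp w c b (kp w d a u) := h.W2 u b d a c
  rw [e1, e2, map_add, e3, e4, hu]
  have e5 : kp w c a (kp w a b z) = kp w a b (kp w c a z) := by
    rw [Alg.kp_comm w c a]; exact h.com a c b z
  have e6 : kp w d a (kp w a b z) = kp w a b (kp w d a z) := by
    rw [Alg.kp_comm w d a]; exact h.com a d b z
  have e7 : ∀ t v, kp w t b (kp w a b v) = kp w a b (kp w t b v) := by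
    intro t v
    rw [Alg.kp_comm w t b, Alg.kp_comm w a b]; exact h.com b t a v
  rw [e5, e6, e7, e7, ← map_add]
  have e8 : kp w d b (kp w c a z) = kp w z b (kp w c a d) := h.W2 d b c a z
  have e9 : kp w c b (kp w d a z) = kp w z b (kp w d a c) := h.W2 c b d a z
  rw [e8, e9, ← map_add, ← e2, h.W2 z b c d a, h.sq]

end Quad

namespace Sym

variable {w : V → AddMonoid.End V} {G : Type} [Group G] {ρ : G →* AddMonoid.End V}

theorem kp_eq_zero [Finite V] [Finite G] (h : Alg w) (s : Sym w G ρ) (x y : V) : kp w x y = 0 := by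
  have hq := Quad.of_deg h (s.deg_three h)
  obtain ⟨τ, hτ⟩ := s.kap x y
  have hAA : kp w x y * kp w x y = 0 := by ext v; exact h.sq x y v
  have hτ2 : τ * τ = 1 := by
    apply s.inj
    rw [map_mul, hτ, map_one]
    calc (1 + kp w x y) * (1 + kp w x y) = 1 + (kp w x y + kp w x y) + kp w x y * kp w x y := by
          noncomm_ring
      _ = 1 := by rw [h.twoE, hAA]; simp
  have hbs : ∀ g : G, ∃ n, (τ * (g * τ * g⁻¹)) ^ 2 ^ n = 1 := by
    intro g
    refine ⟨2, s.inj ?_⟩
    have e1 : ρ (g * τ * g⁻¹) = 1 + kp w (ρ g x) (ρ g y) := by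
      ext v
      rw [map_mul, map_mul, emul, emul, hτ]
      have e0 : ∀ u, (1 + kp w x y) u = u + kp w x y u := fun u => rfl
      have e0' : ∀ u, (1 + kp w (ρ g x) (ρ g y)) u = u + kp w (ρ g x) (ρ g y) u := fun u => rfl
      rw [e0, e0', map_add, inv_ap, ← s.kp_equi, inv_ap]
    rw [map_pow, map_mul, hτ, e1, map_one]
    set A := kp w x y with hA
    set B := kp w (ρ g x) (ρ g y) with hB
    have hBB : B * B = 0 := by ext v; exact h.sq _ _ v
    have hABA : A * B * A = 0 := by ext v; exact hq.ABA _ _ _ _ v
    have hBAB : B * A * B = 0 := by ext v; exact hq.ABA _ _ _ _ v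
    have h2 : ∀ T : AddMonoid.End V, T + T = 0 := h.twoE
    have hN : (A + B + A * B) * (A + B + A * B) = A * B + B * A := by
      calc (A + B + A * B) * (A + B + A * B)
          = A * A + A * B + (A * A) * B + (B * A + B * B + B * A * B) +
            (A * B * A + A * (B * B) + A * B * A * B) := by noncomm_ring
        _ = _ := by rw [hAA, hBB, hABA, hBAB]; simp
    have h11 : (1 + A) * (1 + B) = 1 + (A + B + A * B) := by noncomm_ring
    rw [h11]
    set N := A + B + A * B with hNd
    have hsq : (1 + N) * (1 + N) = 1 + N * N := by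
      calc (1 + N) * (1 + N) = 1 + (N + N) + N * N := by noncomm_ring
        _ = _ := by rw [h2, add_zero]
    have hNN : (N * N) * (N * N) = 0 := by
      rw [hN]
      calc (A * B + B * A) * (A * B + B * A)
          = A * B * A * B + A * (B * B) * A + B * (A * A) * B + B * A * B * A := by noncomm_ring
        _ = 0 := by rw [hAA, hBB, hABA, hBAB]; simp
    have e4 : (1 + N) ^ 2 ^ 2 = ((1 + N) * (1 + N)) * ((1 + N) * (1 + N)) := by
      rw [show (2 : ℕ) ^ 2 = 2 * 2 from rfl, pow_mul, pow_two, pow_two]
    rw [e4, hsq]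
    calc (1 + N * N) * (1 + N * N) = 1 + (N * N + N * N) + (N * N) * (N * N) := by noncomm_ring
      _ = 1 := by rw [h2, hNN]; simp
  have hp := Pool.Agent.H687R3.AL.taskBaerSuzuki G τ hτ2 hbs
  -- fixed points
  set K := Subgroup.normalClosure {τ} with hK
  let W : AddSubgroup V :=
    { carrier := {v | ∀ k ∈ K, ρ k v = v}
      add_mem' := by
        intro a b ha hb k hk
        rw [map_add, ha k hk, hb k hk]
      zero_mem' := fun k _ => map_zero _
      neg_mem' := by
        intro a ha k hk
        rw [map_neg, ha k hk] }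
  have hW := s.irr W (by
    intro g v hv k hk
    have h1 : g⁻¹ * k * g ∈ K := by
      have := Subgroup.normalClosure_normal.conj_mem k hk g⁻¹
      rwa [inv_inv] at this
    have h2 := hv _ h1
    rw [map_mul, map_mul, emul, emul] at h2
    calc ρ k (ρ g v) = ρ g (ρ g⁻¹ (ρ k (ρ g v))) := (inv_ap g _).symm
      _ = ρ g v := by rw [h2])
  have hfin : ∀ v : V, (∀ k ∈ K, ρ k v = v) → kp w x y v = 0 := by
    intro v hv
    have h1 := hv τ (Subgroup.subset_normalClosure rfl)
    rw [hτ] at h1
    have h2 : v + kp w x y v = v := h1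
    exact left_eq_add.1 h2.symm
  rcases hW with hW | hW
  · -- `K` has a nonzero fixed point unless `V` is trivial
    by_cases hV : Nontrivial V
    swap
    · have hs : Subsingleton V := not_nontrivial_iff_subsingleton.1 hV
      ext v
      exact Subsingleton.elim _ _
    exfalso
    let act : MulAction K V :=
      { smul := fun k v => ρ k.1 v
        one_smul := fun v => by
          change ρ 1 v = v
          rw [map_one]; rfl
        mul_smul := fun a b v => by
          change ρ (a.1 * b.1) v = ρ a.1 (ρ b.1 v)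
          rw [map_mul]; rfl }
    have : Fact (Nat.Prime 2) := ⟨Nat.prime_two⟩
    have hdvd : 2 ∣ Nat.card V := by
      obtain ⟨v, hv⟩ := exists_ne (0 : V)
      have h1 : addOrderOf v = 2 := by
        apply addOrderOf_eq_prime
        · rw [two_nsmul, h.two]
        · exact hv
      rw [← h1]
      exact addOrderOf_dvd_natCard v
    obtain ⟨v, hv, hv0⟩ := hp.exists_fixed_point_of_prime_dvd_card_of_fixed_point V hdvd (a := 0)
      (fun k => map_zero _)
    have hvW : v ∈ W := fun k hk => hv ⟨k, hk⟩
    rw [hW, AddSubgroup.mem_bot] at hvW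
    exact hv0 hvW.symm
  · ext v
    have : v ∈ W := by rw [hW]; exact AddSubgroup.mem_top v
    exact hfin v this

end Sym

end

end Pool.Agent.TH427.AM2
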