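import Pool.Agent.TH427.AM2.Top

/-!
The top differences are nilpotent when the degree is at least three; under an irreducible group of
symmetries the degree is at most two.
-/

set_option autoImplicit false

namespace Pool.Agent.TH427.AM2

section

variable {V : Type*} [AddCommGroup V]

/-- the additive group generated by the `kp w x y` -/
def KX (w : V → AddMonoid.End V) (x : V) : AddSubgroup (AddMonoid.End V) :=
  AddSubgroup.closure (Set.range (kp w x))

namespace Alg

variable {w : V → AddMonoid.End V}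

theorem KX_comm (h : Alg w) {x : V} {K K' : AddMonoid.End V} (hK : K ∈ KX w x)
    (hK' : K' ∈ KX w x) : K (K' x) = K' (K x) := by
  have h1 : ∀ y, K (kp w x y x) = kp w x y (K x) := by
    intro y
    induction hK using AddSubgroup.closure_induction with
    | mem K hK => obtain ⟨c, rfl⟩ := hK; exact h.comm_x x c y
    | zero => simp
    | add a b _ _ ha hb => rw [eadd, eadd, ha, hb, map_add]
    | neg a _ ha =>
      have e : ∀ v, (-a) v = -(a v) := fun v => rfl
      rw [e, e, ha, map_neg]
  induction hK' using AddSubgroup.closure_induction with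
  | mem K' hK' => obtain ⟨c, rfl⟩ := hK'; exact h1 c
  | zero => simp
  | add a b _ _ ha hb => rw [eadd, eadd, map_add, ha, hb]
  | neg a _ ha =>
    have e : ∀ v, (-a) v = -(a v) := fun v => rfl
    rw [e, e, map_neg, ha]

theorem KX_sq (h : Alg w) {x : V} {K : AddMonoid.End V} (hK : K ∈ KX w x) : K (K x) = 0 := by
  induction hK using AddSubgroup.closure_induction with
  | mem K hK => obtain ⟨c, rfl⟩ := hK; exact h.sq x c x
  | zero => simp
  | add a b ha' hb' ha hb =>
    rw [eadd, eadd, map_add, map_add, ha, hb, h.KX_comm hb' ha', zero_add, add_zero, h.two]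
  | neg a _ ha =>
    have e : ∀ v, (-a) v = -(a v) := fun v => rfl
    rw [e, e, map_neg, ha]; simp

theorem mem_KX (h : Alg w) {Y : List V} (hY : 1 ≤ Y.length) (x : V) :
    dl (x :: Y) w 0 ∈ KX w x := by
  have e : dl (x :: Y) w 0 = dl Y (fun y => kp w x y) 0 := by
    have e1 : (fun y => kp w x y) = fun y => w x + w y + w (x + y) := rfl
    rw [e1, dl_add, dl_add, dl_const h.twoE hY, dl_shift]
    rw [dl_cons]
    simp only [df, zero_add, add_zero]
    abel
  rw [e]
  exact dl_mem (KX w x) Y _ (fun y => AddSubgroup.subset_closure (Set.mem_range_self y)) 0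

variable {d : ℕ}

theorem top_add (h : Alg w) {Y : List V} (hw : DegLt (d + 1) w) (hY : Y.length + 1 = d)
    (x x' : V) : dl ((x + x') :: Y) w 0 = dl (x :: Y) w 0 + dl (x' :: Y) w 0 := by
  have h1 := congrFun (hw (x :: x' :: Y) (by simp [← hY])) 0
  simp only [dl_cons, df, zero_add] at h1 ⊢
  have h2 := h.twoE (dl Y w x)
  have h3 := h.twoE (dl Y w x')
  have h4 := h.twoE (dl Y w 0)
  apply h.cancelE
  calc dl Y w (x + x') + dl Y w 0 + (dl Y w x + dl Y w 0 + (dl Y w x' + dl Y w 0))
      = (dl Y w (x + x') + dl Y w x + (dl Y w x' + dl Y w 0)) + (dl Y w 0 + dl Y w 0) := by abel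
    _ = 0 := by rw [h1, h4, add_zero]

theorem top_nil (h : Alg w) (hd : 3 ≤ d) (hw : DegLt (d + 1) w) {L : List V}
    (hL : L.length = d) : (dl L w 0) ^ 4 = 0 := by
  match L, hL with
  | [], hL => simp at hL; omega
  | x :: Y, hL =>
    have hY : Y.length + 1 = d := by simpa using hL
    set a : V → AddMonoid.End V := fun x => dl (x :: Y) w 0 with ha
    have hadd : ∀ x x', a (x + x') = a x + a x' := fun x x' => h.top_add hw hY x x'
    have hcomm : ∀ x x', a x * a x' = a x' * a x := fun x x' =>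
      h.top_comm hd hw (by simp [hY]) (by simp [hY])
    have hsq : ∀ x, a x (a x x) = 0 := fun x => h.KX_sq (h.mem_KX (by omega) x)
    have hb : ∀ x x', a (x + x') * a (x + x') = a x * a x + a x' * a x' := by
      intro x x'
      rw [hadd, add_mul, mul_add, mul_add, hcomm x' x]
      have := h.twoE (a x * a x')
      calc a x * a x + a x * a x' + (a x * a x' + a x' * a x')
          = a x * a x + (a x * a x' + a x * a x') + a x' * a x' := by abel
        _ = _ := by rw [this, add_zero]
    have hpol : ∀ x x', a x (a x x') = a x' (a x' x) := by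
      intro x x'
      have h1 := hsq (x + x')
      rw [← emul, hb, eadd, emul, emul, map_add, map_add, map_add, map_add, hsq, hsq, zero_add,
        add_zero] at h1
      exact h.cancel h1
    ext v
    have e : ((a x) ^ 4) v = a x (a x (a x (a x v))) := rfl
    change ((a x) ^ 4) v = 0
    rw [e, hpol x v]
    have c : ∀ u, a x (a v u) = a v (a x u) := fun u => by
      rw [← emul, hcomm, emul]
    rw [c, c, c, c, hsq]
    simp

end Alg

/-- commuting nilpotent endomorphisms have a common kernel -/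
theorem common_kernel [Finite V] [Nontrivial V] (S : Set (AddMonoid.End V))
    (hcomm : ∀ s ∈ S, ∀ t ∈ S, s * t = t * s) (hnil : ∀ s ∈ S, ∃ n : ℕ, s ^ n = 0) :
    ∃ v : V, v ≠ 0 ∧ ∀ s ∈ S, s v = 0 := by
  let P : Set (AddSubgroup V) := {U | U ≠ ⊥ ∧ ∀ s ∈ S, ∀ u ∈ U, s u ∈ U}
  have hP : (⊤ : AddSubgroup V) ∈ P := ⟨top_ne_bot, fun _ _ _ _ => trivial⟩
  obtain ⟨U, ⟨hU1, hU2⟩, hU3⟩ := (Set.toFinite P).exists_minimal ⟨_, hP⟩
  obtain ⟨v, hv⟩ := AddSubgroup.ne_bot_iff_exists_ne_zero.1 hU1
  refine ⟨v, fun h => hv (Subtype.ext h), fun s hs => ?_⟩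
  let T : AddSubgroup V := U.map (s : V →+ V)
  have hTU : T ≤ U := by
    rintro _ ⟨u, hu, rfl⟩
    exact hU2 s hs u hu
  have hTinv : ∀ t ∈ S, ∀ u ∈ T, t u ∈ T := by
    rintro t ht _ ⟨u, hu, rfl⟩
    refine ⟨t u, hU2 t ht u hu, ?_⟩
    have := congrArg (fun f : AddMonoid.End V => f u) (hcomm s hs t ht)
    exact this
  by_cases hT : T = ⊥
  · have : (s : V →+ V) v ∈ T := ⟨v, v.2, rfl⟩
    rw [hT, AddSubgroup.mem_bot] at this
    exact this
  · exfalso
    have hUT : U ≤ T := hU3 ⟨hT, hTinv⟩ hTU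
    obtain ⟨n, hn⟩ := hnil s hs
    have key : ∀ n : ℕ, ∀ u ∈ U, ∃ u' ∈ U, (s ^ n) u' = u := by
      intro n
      induction n with
      | zero => intro u hu; exact ⟨u, hu, rfl⟩
      | succ n ih =>
        intro u hu
        obtain ⟨u1, hu1, h1⟩ := hUT hu
        obtain ⟨u2, hu2, h2⟩ := ih u1 hu1
        refine ⟨u2, hu2, ?_⟩
        rw [pow_succ', emul, h2]
        exact h1
    obtain ⟨u', -, h1⟩ := key n v v.2
    rw [hn] at h1
    exact hv (Subtype.ext h1.symm)

end

end Pool.Agent.TH427.AM2
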