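import Pool.Agent.TH427.AM2.Core
import Pool.Agent.W328.AM.Final

/-!
Minimal normal subloops of automorphic loops of 2-power order are elementary abelian 2-groups.
-/

set_option autoImplicit false

namespace Pool.Agent.TH427.AM2

open Pool.Agent.H687R3.AL Pool.Agent.H687R3.AL.AL Pool.Agent.W328.AM Equiv

variable {Q : Type} {A : AL Q} {M : Set Q}

theorem je : A.J A.e = A.e := (eq_inv (A.idl A.e)).symm

/-- the kernel on the blocks of a normal subloop -/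
def DD (h : NS A M) : Subgroup (GG A) where
  carrier := {g | (g : Perm Q) ∈ Hol A ∧ ∀ x, ∃ m ∈ M, (g : Perm Q) x = A.op x m}
  mul_mem' := by
    rintro a b ⟨ha2, ha3⟩ ⟨hb2, hb3⟩
    exact ⟨mul_mem ha2 hb2, fun x => h.trans (hb3 x) (ha3 ((b : Perm Q) x))⟩
  one_mem' := ⟨one_mem _, fun x => ⟨A.e, h.e, (A.idr x).symm⟩⟩
  inv_mem' := by
    rintro a ⟨ha2, ha3⟩
    refine ⟨inv_mem ha2, fun x => ?_⟩
    obtain ⟨m, hm, h1⟩ := ha3 ((a : Perm Q)⁻¹ x)
    apply h.symm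
    refine ⟨m, hm, ?_⟩
    change x = A.op ((a : Perm Q)⁻¹ x) m
    rw [← h1]
    simp

instance DD_normal (h : NS A M) : (DD h).Normal := by
  constructor
  rintro d ⟨h2, h3⟩ g
  refine ⟨hol_conj g.2 h2, fun x => ?_⟩
  obtain ⟨m, hm, h4⟩ := h3 ((g : Perm Q)⁻¹ x)
  obtain ⟨t, ht, h5⟩ := h.blk g.2 ((g : Perm Q)⁻¹ x) hm
  refine ⟨t, ht, ?_⟩
  change (g : Perm Q) ((d : Perm Q) ((g : Perm Q)⁻¹ x)) = _
  rw [h4, h5]
  simp

theorem gl_DD (h : NS A M) {m : Q} (hm : m ∈ M) : gl A m ∈ DD h := by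
  refine ⟨L_hol m, fun x => ?_⟩
  obtain ⟨t, ht, h1⟩ := h.blk (R_mem A x) A.e hm
  rw [A.idl] at h1
  refine ⟨t, ht, ?_⟩
  have e1 : A.R x A.e = x := A.idl x
  rw [e1] at h1
  exact h1

/-- the normal 2-subgroup generated by the inversion -/
def RR (A : AL Q) : Subgroup (GG A) := Subgroup.normalClosure {gj A}

instance RR_normal : (RR A).Normal := Subgroup.normalClosure_normal

theorem gj_RR : gj A ∈ RR A := Subgroup.subset_normalClosure rfl

/-- the involutions in the center of `RR ⊓ DD` -/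
def WW (h : NS A M) : Subgroup (GG A) where
  carrier := {g | g ∈ RR A ⊓ DD h ∧ (∀ t ∈ RR A ⊓ DD h, g * t = t * g) ∧ g * g = 1}
  mul_mem' := by
    rintro a b ⟨ha1, ha2, ha3⟩ ⟨hb1, hb2, hb3⟩
    refine ⟨mul_mem ha1 hb1, fun t ht => ?_, ?_⟩
    · rw [mul_assoc, hb2 t ht, ← mul_assoc, ha2 t ht, mul_assoc]
    · calc a * b * (a * b) = a * (b * a) * b := by group
        _ = (a * a) * (b * b) := by rw [hb2 a ha1]; group
        _ = 1 := by rw [ha3, hb3, one_mul]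
  one_mem' := ⟨one_mem _, fun t _ => by rw [one_mul, mul_one], one_mul 1⟩
  inv_mem' := by
    rintro a ⟨ha1, ha2, ha3⟩
    have : a⁻¹ = a := inv_eq_of_mul_eq_one_left ha3
    rw [this]
    exact ⟨ha1, ha2, ha3⟩

instance WW_normal (h : NS A M) : (WW h).Normal := by
  constructor
  rintro w ⟨h1, h2, h3⟩ g
  have hn : (RR A ⊓ DD h).Normal := inferInstance
  refine ⟨hn.conj_mem w h1 g, fun t ht => ?_, ?_⟩
  · have h4 : g⁻¹ * t * g ∈ RR A ⊓ DD h := by
      have := hn.conj_mem t ht g⁻¹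
      rwa [inv_inv] at this
    have h5 := h2 _ h4
    calc g * w * g⁻¹ * t = g * (w * (g⁻¹ * t * g)) * g⁻¹ := by group
      _ = g * ((g⁻¹ * t * g) * w) * g⁻¹ := by rw [h5]
      _ = _ := by group
  · calc g * w * g⁻¹ * (g * w * g⁻¹) = g * (w * w) * g⁻¹ := by group
      _ = 1 := by rw [h3]; group

theorem WW_comm (h : NS A M) {u v : GG A} (hu : u ∈ WW h) (hv : v ∈ WW h) : u * v = v * u :=
  hu.2.1 v hv.1

theorem RR_two [Finite Q] (hcard : ∃ n, Nat.card Q = 2 ^ n) : IsPGroup 2 (RR A) := by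
  obtain ⟨n, hn⟩ := hcard
  exact J_two (A := A) hn

theorem WW_ne [Finite Q] (h : NS A M) (hcard : ∃ n, Nat.card Q = 2 ^ n)
    {m : Q} (hm : m ∈ M) (hmm : A.op m m ≠ A.e) : ∃ w ∈ WW h, w ≠ 1 := by
  have : Fact (Nat.Prime 2) := ⟨Nat.prime_two⟩
  set T : Subgroup (GG A) := RR A ⊓ DD h with hT
  have hpT : IsPGroup 2 T := (RR_two hcard).to_le inf_le_left
  -- a nontrivial element of `T`
  have hel : gl A m * gj A * (gl A m)⁻¹ * gj A ∈ T := by
    refine ⟨?_, ?_⟩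
    · exact mul_mem (RR_normal.conj_mem _ gj_RR _) gj_RR
    · have e : gl A m * gj A * (gl A m)⁻¹ * gj A =
          gl A m * (gj A * (gl A m)⁻¹ * (gj A)⁻¹) := by
        have e1 : (gj A)⁻¹ = gj A := Subtype.ext AL.J_inv
        rw [e1]; group
      rw [e]
      exact mul_mem (gl_DD h hm) ((DD_normal h).conj_mem _ (inv_mem (gl_DD h hm)) _)
  have hne : gl A m * gj A * (gl A m)⁻¹ * gj A ≠ 1 := by
    intro h1
    have h2 := congrArg (fun g : GG A => (g : Perm Q) A.e) h1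
    have h3 : A.op m (A.inv ((A.L m)⁻¹ (A.J A.e))) = A.e := h2
    rw [je] at h3
    have h4 : (A.L m)⁻¹ A.e = A.inv m := rfl
    rw [h4, inv_inv'] at h3
    exact hmm h3
  have hnt : Nontrivial T := ⟨⟨⟨_, hel⟩, 1, fun h1 => hne (congrArg Subtype.val h1)⟩⟩
  have hcen : Nontrivial (Subgroup.center T) := hpT.center_nontrivial
  have hpc : IsPGroup 2 (Subgroup.center T) := hpT.to_subgroup _
  obtain ⟨k, hk⟩ := IsPGroup.iff_card.1 hpc
  have hdvd : 2 ∣ Nat.card (Subgroup.center T) := by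
    rw [hk]
    apply dvd_pow_self
    rintro rfl
    rw [pow_zero, Nat.card_eq_one_iff_unique] at hk
    exact not_subsingleton _ hk.1
  obtain ⟨x, hx⟩ := exists_prime_orderOf_dvd_card' (G := Subgroup.center T) 2 hdvd
  have hx2 : x * x = 1 := by
    have := pow_orderOf_eq_one x
    rwa [hx, pow_two] at this
  refine ⟨x.1.1, ⟨x.1.2, fun t ht => ?_, ?_⟩, ?_⟩
  · have := Subgroup.mem_center_iff.1 x.2 ⟨t, ht⟩
    exact (congrArg Subtype.val this).symm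
  · exact congrArg (fun g : Subgroup.center T => g.1.1) hx2
  · intro h1
    have : x = 1 := Subtype.ext (Subtype.ext h1)
    rw [this, orderOf_one] at hx
    norm_num at hx

/-- a minimal normal subloop -/
structure MN (A : AL Q) (M : Set Q) : Prop where
  ns : NS A M
  ne : ∃ m ∈ M, m ≠ A.e
  min : ∀ S, NS A S → S ⊆ M → (∃ s ∈ S, s ≠ A.e) → M ⊆ S

namespace MN

/-- the orbit of `e` is `M` -/
theorem orb [Finite Q] (h : MN A M) (hcard : ∃ n, Nat.card Q = 2 ^ n)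
    {m : Q} (hm : m ∈ M) (hmm : A.op m m ≠ A.e) :
    ∀ x ∈ M, ∃ w ∈ WW h.ns, (w : Perm Q) A.e = x := by
  let S : Set Q := {x | ∃ w ∈ WW h.ns, (w : Perm Q) A.e = x}
  have hS : NS A S := by
    refine ⟨⟨1, one_mem _, rfl⟩, ?_, ?_⟩
    · rintro _ ⟨u, hu, rfl⟩ _ ⟨v, hv, rfl⟩
      set s := (u : Perm Q) A.e with hs
      refine ⟨gl A s * v * (gl A s)⁻¹ * u, mul_mem ((WW_normal h.ns).conj_mem v hv _) hu, ?_⟩
      change A.op s ((v : Perm Q) ((A.L s)⁻¹ s)) = A.op s ((v : Perm Q) A.e)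
      have : (A.L s)⁻¹ s = A.e := by rw [Perm.inv_eq_iff_eq]; exact (A.idr s).symm
      rw [this]
    · rintro g hg hge _ ⟨w, hw, rfl⟩
      refine ⟨⟨g, hg⟩ * w * ⟨g, hg⟩⁻¹, (WW_normal h.ns).conj_mem w hw _, ?_⟩
      change g ((w : Perm Q) (g⁻¹ A.e)) = g ((w : Perm Q) A.e)
      have : g⁻¹ A.e = A.e := by rw [Perm.inv_eq_iff_eq, hge]
      rw [this]
  have hSM : S ⊆ M := by
    rintro _ ⟨w, hw, rfl⟩
    obtain ⟨t, ht, h1⟩ := hw.1.2.2 A.e
    rw [h1, A.idl]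
    exact ht
  have hSne : ∃ s ∈ S, s ≠ A.e := by
    by_contra hcon
    push Not at hcon
    obtain ⟨w, hw, hw1⟩ := WW_ne h.ns hcard hm hmm
    apply hw1
    apply Subtype.ext
    ext x
    have h1 : (gl A x)⁻¹ * w * (gl A x)⁻¹⁻¹ ∈ WW h.ns := (WW_normal h.ns).conj_mem w hw _
    have h2 := hcon _ ⟨_, h1, rfl⟩
    have h3 : (A.L x)⁻¹ ((w : Perm Q) ((A.L x)⁻¹⁻¹ A.e)) = A.e := h2
    rw [inv_inv, Perm.inv_eq_iff_eq, L_apply, A.idr] at h3
    exact h3
  exact h.min S hS hSM hSne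

/-- exponent two -/
theorem sq [Finite Q] (h : MN A M) (hcard : ∃ n, Nat.card Q = 2 ^ n) :
    ∀ m ∈ M, A.op m m = A.e := by
  by_contra hcon
  push Not at hcon
  obtain ⟨m0, hm0, hmm0⟩ := hcon
  have horb := h.orb hcard hm0 hmm0
  have : Fact (Nat.Prime 2) := ⟨Nat.prime_two⟩
  set P : Subgroup (GG A) := RR A ⊓ MulAction.stabilizer (GG A) A.e with hP
  have hpP : IsPGroup 2 P := (RR_two hcard).to_le inf_le_left
  -- two elements of `WW` with the same value at `e` agree on `M`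
  have hreg : ∀ u ∈ WW h.ns, ∀ v ∈ WW h.ns, (u : Perm Q) A.e = (v : Perm Q) A.e →
      ∀ m ∈ M, (u : Perm Q) m = (v : Perm Q) m := by
    intro u hu v hv huv m hm
    obtain ⟨w, hw, rfl⟩ := horb m hm
    have h1 : (u : Perm Q) ((w : Perm Q) A.e) = (w : Perm Q) ((u : Perm Q) A.e) :=
      congrArg (fun g : GG A => (g : Perm Q) A.e) (WW_comm h.ns hu hw)
    have h2 : (v : Perm Q) ((w : Perm Q) A.e) = (w : Perm Q) ((v : Perm Q) A.e) :=
      congrArg (fun g : GG A => (g : Perm Q) A.e) (WW_comm h.ns hv hw)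
    rw [h1, h2, huv]
  let S : Set Q := {m | m ∈ M ∧ ∀ ρ ∈ P, (ρ : Perm Q) m = m}
  have hst : ∀ g ∈ GG A, g A.e = A.e → ∀ s ∈ S, g s ∈ S := by
    rintro g hg hge s ⟨hs, hs'⟩
    refine ⟨h.ns.st g hg hge s hs, fun ρ hρ => ?_⟩
    have h1 : (⟨g, hg⟩ : GG A)⁻¹ * ρ * (⟨g, hg⟩ : GG A) ∈ P := by
      refine ⟨?_, ?_⟩
      · have := (RR_normal (A := A)).conj_mem ρ hρ.1 (⟨g, hg⟩ : GG A)⁻¹
        rwa [inv_inv] at this
      · change g⁻¹ ((ρ : Perm Q) (g A.e)) = A.e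
        have h2 : (ρ : Perm Q) A.e = A.e := hρ.2
        rw [hge, h2, Perm.inv_eq_iff_eq, hge]
    have h2 := hs' _ h1
    have h3 : g⁻¹ ((ρ : Perm Q) (g s)) = s := h2
    rw [Perm.inv_eq_iff_eq] at h3
    exact h3
  have hS : NS A S := by
    refine ⟨⟨h.ns.e, fun ρ hρ => hρ.2⟩, ?_, hst⟩
    rintro s ⟨hs, hs'⟩ t ht
    refine ⟨h.ns.op s hs t ht.1, fun ρ hρ => ?_⟩
    obtain ⟨u, hu, hus⟩ := horb s hs
    set l : GG A := u⁻¹ * gl A s with hl
    have hle : (l : Perm Q) A.e = A.e := by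
      change (u : Perm Q)⁻¹ (A.op s A.e) = A.e
      rw [A.idr, Perm.inv_eq_iff_eq, hus]
    have hlt : (l : Perm Q) t ∈ S := hst l l.2 hle t ht
    have e1 : A.op s t = (u : Perm Q) ((l : Perm Q) t) := by
      change A.op s t = (u : Perm Q) ((u : Perm Q)⁻¹ (A.op s t))
      simp
    have hconj : ρ * u * ρ⁻¹ ∈ WW h.ns := (WW_normal h.ns).conj_mem u hu ρ
    have hρe : (ρ : Perm Q)⁻¹ A.e = A.e := by
      rw [Perm.inv_eq_iff_eq]; exact hρ.2.symm
    have e2 : ((ρ * u * ρ⁻¹ : GG A) : Perm Q) A.e = (u : Perm Q) A.e := by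
      change (ρ : Perm Q) ((u : Perm Q) ((ρ : Perm Q)⁻¹ A.e)) = _
      rw [hρe, hus, hs' ρ hρ]
    have e3 := hreg _ hconj u hu e2 _ hlt.1
    have e4 : (ρ : Perm Q) ((u : Perm Q) ((ρ : Perm Q)⁻¹ ((l : Perm Q) t))) =
        (u : Perm Q) ((l : Perm Q) t) := e3
    have e5 : (ρ : Perm Q)⁻¹ ((l : Perm Q) t) = (l : Perm Q) t := by
      rw [Perm.inv_eq_iff_eq]; exact (hlt.2 ρ hρ).symm
    rw [e5] at e4
    rw [e1]
    exact e4
  -- `S` is nontrivial
  have hSne : ∃ s ∈ S, s ≠ A.e := by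
    let act : MulAction P {m : Q // m ∈ M} :=
      { smul := fun ρ m => ⟨(ρ.1 : Perm Q) m.1, h.ns.st _ ρ.1.2 ρ.2.2 _ m.2⟩
        one_smul := fun m => rfl
        mul_smul := fun a b m => rfl }
    have hdvd : 2 ∣ Nat.card {m : Q // m ∈ M} := by
      have hpW : IsPGroup 2 (WW h.ns) := (RR_two hcard).to_le (fun w hw => hw.1.1)
      obtain ⟨n, hn⟩ := hpW.card_orbit A.e
      have e : MulAction.orbit (WW h.ns) A.e = M := by
        ext x
        constructor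
        · rintro ⟨w, rfl⟩
          obtain ⟨t, ht, h1⟩ := w.2.1.2.2 A.e
          have : (w : WW h.ns) • A.e = t := by
            change ((w.1 : GG A) : Perm Q) A.e = t
            rw [h1, A.idl]
          change (w : WW h.ns) • A.e ∈ M
          rw [this]; exact ht
        · intro hx
          obtain ⟨w, hw, h1⟩ := horb x hx
          exact ⟨⟨w, hw⟩, h1⟩
      rw [e] at hn
      change 2 ∣ Nat.card M
      rw [hn]
      apply dvd_pow_self
      rintro rfl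
      rw [pow_zero, Nat.card_eq_one_iff_unique] at hn
      obtain ⟨m, hm, hme⟩ := h.ne
      exact hme (congrArg Subtype.val (hn.1.elim (⟨m, hm⟩ : M) ⟨A.e, h.ns.e⟩))
    obtain ⟨⟨m, hm⟩, hfix, hne⟩ := hpP.exists_fixed_point_of_prime_dvd_card_of_fixed_point
      {m : Q // m ∈ M} hdvd (a := ⟨A.e, h.ns.e⟩) (fun ρ => Subtype.ext ρ.2.2)
    refine ⟨m, ⟨hm, fun ρ hρ => ?_⟩, fun he => hne (Subtype.ext he.symm)⟩
    exact congrArg Subtype.val (hfix ⟨ρ, hρ⟩)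
  have hMS := h.min S hS (fun s hs => hs.1) hSne
  have hJP : gj A ∈ P := ⟨gj_RR, je⟩
  have h1 : A.J m0 = m0 := (hMS hm0).2 _ hJP
  apply hmm0
  have h2 : A.inv m0 = m0 := h1
  have h3 := op_inv (A := A) m0
  rwa [h2] at h3

end MN

end Pool.Agent.TH427.AM2
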