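import Pool.Agent.TH427.AM2.Alg

/-!
Top differences of `w` commute when the degree is at least three.
-/

set_option autoImplicit false

namespace Pool.Agent.TH427.AM2

section

variable {V : Type*} [AddCommGroup V] {M : Type*} [AddCommGroup M]

theorem dl_swap (P Q : List V) (G : V → V → M) (p0 q0 : V) :
    dl P (fun p => dl Q (fun q => G p q) q0) p0 = dl Q (fun q => dl P (fun p => G p q) p0) q0 := by
  induction P generalizing p0 with
  | nil => rfl
  | cons a P ih =>
    have h1 : dl (a :: P) (fun p => dl Q (fun q => G p q) q0) p0 =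
      dl P (fun p => dl Q (fun q => G p q) q0) (p0 + a) +
        dl P (fun p => dl Q (fun q => G p q) q0) p0 := rfl
    rw [h1, ih, ih]
    exact (congrFun (dl_add Q (fun q => dl P (fun p => G p q) (p0 + a))
      (fun q => dl P (fun p => G p q) p0)) q0).symm

theorem dl_mapE (A : AddMonoid.End V) (L : List V) (f : V → V) :
    dl L (fun x => A (f x)) = fun x => A (dl L f x) :=
  dl_map (A : V →+ V) L f

theorem dl_ev (w : V → AddMonoid.End V) (L : List V) (v : V) :
    dl L (fun x => w x v) = fun x => (dl L w x) v :=
  dl_map (AddMonoidHom.eval v : AddMonoid.End V →+ V) L w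

theorem dl_linE (hV : ∀ v : V, v + v = 0) {L : List V} (hL : 2 ≤ L.length)
    (A : AddMonoid.End V) : dl L (fun x => A x) = fun _ => 0 :=
  dl_lin hV hL (A : V →+ V)

theorem dl_linE2 (hV : ∀ v : V, v + v = 0) {L : List V} (hL : 2 ≤ L.length)
    (A B : AddMonoid.End V) : dl L (fun x => A (B x)) = fun _ => 0 :=
  dl_linE hV hL (A * B)

namespace Alg

variable {w : V → AddMonoid.End V}

theorem F_R (h : Alg w) {R : List V} (hR : 2 ≤ R.length) (p q r : V) :
    dl R (fun r => F w p q r) r = kp w p q ((dl R w r) (p + q)) := by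
  have e : (fun r => F w p q r) = fun r => (kp w p q) (w (p + q) r + w r (p + q)) := rfl
  rw [e, dl_mapE (kp w p q), dl_add, dl_linE h.two hR, dl_ev]
  simp only [zero_add]

theorem G_exp (h : Alg w) (B : AddMonoid.End V) (p q : V) :
    kp w p q (B (p + q)) = w p (B p) + w p (B q) + (w q (B p) + w q (B q)) +
      w (p + q) (B (p + q)) := by
  have _ := h.zero
  unfold kp
  simp only [eadd]
  rw [map_add B, map_add (w p), map_add (w q)]

theorem G_Q (h : Alg w) (B : AddMonoid.End V) {Q : List V} (hQ : 2 ≤ Q.length) (p q : V) :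
    dl Q (fun q => kp w p q (B (p + q))) q =
      (dl Q w q) (B p) + dl Q (fun z => w z (B z)) q + dl Q (fun z => w z (B z)) (p + q) := by
  have e : (fun q => kp w p q (B (p + q))) = fun q => w p (B p) + w p (B q) +
    (w q (B p) + w q (B q)) + w (p + q) (B (p + q)) := funext fun q => h.G_exp B p q
  rw [e, dl_add, dl_add, dl_add, dl_add, dl_const h.two (by omega : 1 ≤ Q.length),
    dl_linE2 h.two hQ (w p) B, dl_shift Q (fun z => w z (B z)) p, dl_ev]
  simp only [zero_add]

theorem G_PQ (h : Alg w) (B : AddMonoid.End V) {P Q : List V} (hP : 2 ≤ P.length)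
    (hQ : 2 ≤ Q.length) (p q : V) :
    dl P (fun p => dl Q (fun q => kp w p q (B (p + q))) q) p =
      dl P (dl Q (fun z => w z (B z))) (p + q) := by
  have e : (fun p => dl Q (fun q => kp w p q (B (p + q))) q) = fun p =>
      (dl Q w q) (B p) + dl Q (fun z => w z (B z)) q + dl Q (fun z => w z (B z)) (p + q) :=
    funext fun p => h.G_Q B hQ p q
  rw [e, dl_add, dl_add, dl_linE2 h.two hP (dl Q w q) B,
    dl_const h.two (by omega : 1 ≤ P.length), dl_shift' P (dl Q (fun z => w z (B z))) q]
  simp only [zero_add]

theorem G_Pa (h : Alg w) (B : AddMonoid.End V) {P : List V} (hP : 2 ≤ P.length) (a p q : V) :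
    dl P (fun p => dl [a] (fun q => kp w p q (B (p + q))) q) p =
      (dl P w p) (B a) + dl P (df a (fun z => w z (B z))) (p + q) := by
  have e : (fun p => dl [a] (fun q => kp w p q (B (p + q))) q) = fun p =>
      w p (B a) + (df a w q) (B p) + df a (fun z => w z (B z)) q +
        df a (fun z => w z (B z)) (p + q) := by
    funext p
    have e : (fun q => kp w p q (B (p + q))) = fun q => w p (B p) + w p (B q) +
      (w q (B p) + w q (B q)) + w (p + q) (B (p + q)) := funext fun q => h.G_exp B p q
    rw [e, dl_add, dl_add, dl_add, dl_add, dl_const h.two (by simp : 1 ≤ [a].length),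
      dl_shift [a] (fun z => w z (B z)) p]
    simp only [dl_cons, dl_nil]
    have h3 := congrFun (df_lin h.two a ((w p).comp B : V →+ V)) q
    have h3' : df a (fun x => w p (B x)) q = w p (B a) := h3
    have h4 := congrFun (df_map (AddMonoidHom.eval (B p) : AddMonoid.End V →+ V) a w) q
    have h4' : df a (fun x => w x (B p)) q = (df a w q) (B p) := h4
    rw [h3', h4', zero_add]
    abel
  rw [e, dl_add, dl_add, dl_add, dl_linE2 h.two hP (df a w q) B,
    dl_const h.two (by omega : 1 ≤ P.length), dl_shift' P (df a (fun z => w z (B z))) q, dl_ev]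
  simp only [add_zero]

theorem swap3 (h : Alg w) (P Q R : List V) (p q r : V) :
    dl P (fun p => dl Q (fun q => dl R (fun r => F w p q r) r) q) p =
      dl R (fun a => dl Q (fun b => dl P (fun c => F w a b c) p) q) r := by
  have e1 : (fun p => dl Q (fun q => dl R (fun r => F w p q r) r) q) =
      fun p => dl R (fun r => dl Q (fun q => F w p q r) q) r :=
    funext fun p => dl_swap Q R (fun q r => F w p q r) q r
  rw [e1, dl_swap P R (fun p r => dl Q (fun q => F w p q r) q) p r]
  have e2 : (fun r => dl P (fun p => dl Q (fun q => F w p q r) q) p) =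
      fun r => dl Q (fun q => dl P (fun p => F w p q r) p) q :=
    funext fun r => dl_swap P Q (fun p q => F w p q r) p q
  rw [e2]
  have e3 : ∀ a b c, F w a b c = F w c b a := h.F_13
  have e4 : (fun r => dl Q (fun q => dl P (fun p => F w p q r) p) q) =
      fun r => dl Q (fun q => dl P (fun p => F w r q p) p) q := by
    funext r
    have : (fun q => dl P (fun p => F w p q r) p) = fun q => dl P (fun p => F w r q p) p := by
      funext q
      have : (fun p => F w p q r) = fun p => F w r q p := funext fun p => e3 p q r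
      rw [this]
    rw [this]
  rw [e4]

variable {d : ℕ}

/-- `z ↦ w(z) Θ_R z` has degree at most `d` -/
theorem deg_u (h : Alg w) (hd : 3 ≤ d) (hw : DegLt (d + 1) w) {R : List V} (hR : R.length = d) :
    DegLt (d + 1) (fun z => w z ((dl R w 0) z)) := by
  intro L hL
  obtain ⟨P, Q, rfl, hP⟩ : ∃ P Q : List V, L = P ++ Q ∧ P.length = 2 :=
    ⟨L.take 2, L.drop 2, (List.take_append_drop 2 L).symm, by rw [List.length_take]; omega⟩
  rw [List.length_append, hP] at hL
  rw [dl_append]
  funext z
  have h1 := h.swap3 P Q R z 0 0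
  have e1 : (fun p => dl Q (fun q => dl R (fun r => F w p q r) 0) 0) =
      fun p => dl Q (fun q => kp w p q ((dl R w 0) (p + q))) 0 := by
    funext p
    have : (fun q => dl R (fun r => F w p q r) 0) = fun q => kp w p q ((dl R w 0) (p + q)) :=
      funext fun q => h.F_R (by omega) p q 0
    rw [this]
  have e2 : (fun p => dl Q (fun q => dl P (fun r => F w p q r) z) 0) =
      fun p => dl Q (fun q => kp w p q ((dl P w z) (p + q))) 0 := by
    funext p
    have : (fun q => dl P (fun r => F w p q r) z) = fun q => kp w p q ((dl P w z) (p + q)) :=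
      funext fun q => h.F_R (by omega) p q z
    rw [this]
  rw [e1, e2, h.G_PQ _ (by omega) (by omega), h.G_PQ _ (by omega) (by omega), add_zero] at h1
  rw [h1, ← dl_append]
  have h3 := (DegLt.mul (dl P w z) hw).long (L := R ++ Q) (by rw [List.length_append]; omega)
  exact congrFun h3 _

theorem top_comm (h : Alg w) (hd : 3 ≤ d) (hw : DegLt (d + 1) w) {P R : List V}
    (hP : P.length = d) (hR : R.length = d) :
    dl P w 0 * dl R w 0 = dl R w 0 * dl P w 0 := by
  have key : ∀ {P R : List V} (_ : P.length = d) (_ : R.length = d) (a : V),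
      dl P (fun p => dl [a] (fun q => dl R (fun r => F w p q r) 0) 0) 0 =
        (dl P w 0) ((dl R w 0) a) := by
    intro P R hP hR a
    have e1 : (fun p => dl [a] (fun q => dl R (fun r => F w p q r) 0) 0) =
        fun p => dl [a] (fun q => kp w p q ((dl R w 0) (p + q))) 0 := by
      funext p
      have : (fun q => dl R (fun r => F w p q r) 0) = fun q => kp w p q ((dl R w 0) (p + q)) :=
        funext fun q => h.F_R (by omega) p q 0
      rw [this]
    rw [e1, h.G_Pa _ (by omega), dl_df, ← dl_cons, h.deg_u hd hw hR (a :: P) (by simp [hP])]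
    simp
  ext a
  rw [emul, emul, ← key hP hR, ← key hR hP]
  exact h.swap3 P [a] R 0 0 0

end Alg

end

end Pool.Agent.TH427.AM2
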